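import Pool.Agent.Lib_helper74.IS.Loc
import Pool.Agent.Lib_helper74.NE.Univ
/-!
# Block A: simulation of trees with inverse questions
-/

set_option autoImplicit false

namespace Pool.Agent.TD.IS

open Pool.Agent.CK

section A

variable {β γ Zt Qt ι : Type} [DecidableEq Zt]

/-- A -/
theorem simI_map (G : Stg Zt Qt ι) (d0 : β) (f : β → γ) (t : DT β) (ρ : List (Zt × Qt))
    (r : List Qt) : (simI G d0 t ρ r).map f = simI G (f d0) (t.map f) ρ r := by
  induction t generalizing ρ r with
  | leaf b => rfl
  | node w n0 n1 h0 h1 =>
    rw [DT.map, simI, simI]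
    rcases hp : G.ps w with _ | ⟨z, i⟩ | ⟨l, q, i⟩
    · simp only [DT.map, h0, h1]
    · simp only
      cases hl : ρ.lookup z with
      | some q =>
        simp only
        split_ifs
        · exact h1 _ _
        · exact h0 _ _
      | none =>
        cases r with
        | nil => rfl
        | cons q r =>
          simp only
          split_ifs
          · exact h1 _ _
          · exact h0 _ _
    · simp only
      split_ifs
      · exact h1 _ _
      · exact h0 _ _

/-- A -/
theorem depth_simI (G : Stg Zt Qt ι) (d0 : β) (t : DT β) (ρ : List (Zt × Qt)) (r : List Qt) :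
    (simI G d0 t ρ r).depth ≤ t.depth := by
  induction t generalizing ρ r with
  | leaf b => simp [simI]
  | node w n0 n1 h0 h1 =>
    rw [simI, DT.depth_node]
    rcases hp : G.ps w with _ | ⟨z, i⟩ | ⟨l, q, i⟩
    · simp only
      have a0 := h0 ρ r
      have a1 := h1 ρ r
      rw [DT.depth_node]; omega
    · simp only
      cases hl : ρ.lookup z with
      | some q =>
        simp only
        have a0 := h0 ρ r
        have a1 := h1 ρ r
        split_ifs <;> omega
      | none =>
        cases r with
        | nil => simp
        | cons q r =>
          simp only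
          have a0 := h0 ((z, q) :: ρ) r
          have a1 := h1 ((z, q) :: ρ) r
          split_ifs <;> omega
    · simp only
      have a0 := h0 ρ r
      have a1 := h1 ρ r
      split_ifs <;> omega

/-- A -/
theorem allQ_simI (P : Str → Prop) (G : Stg Zt Qt ι) (d0 : β) (t : DT β) (ρ : List (Zt × Qt))
    (r : List Qt) (h : t.AllQ P) : (simI G d0 t ρ r).AllQ P := by
  induction t generalizing ρ r with
  | leaf b => trivial
  | node w n0 n1 h0 h1 =>
    obtain ⟨hw, h2, h3⟩ := h
    rw [simI]
    rcases hp : G.ps w with _ | ⟨z, i⟩ | ⟨l, q, i⟩
    · exact ⟨hw, h0 _ _ h2, h1 _ _ h3⟩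
    · simp only
      cases hl : ρ.lookup z with
      | some q =>
        simp only
        split_ifs
        · exact h1 _ _ h3
        · exact h0 _ _ h2
      | none =>
        cases r with
        | nil => trivial
        | cons q r =>
          simp only
          split_ifs
          · exact h1 _ _ h3
          · exact h0 _ _ h2
    · simp only
      split_ifs
      · exact h1 _ _ h3
      · exact h0 _ _ h2

/-- A: if all entries are known, the simulation is correct -/
theorem simI_full (G : Stg Zt Qt ι) (d0 : β) (O : Lang) (T : Zt → Qt) (t : DT β)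
    (ρ : List (Zt × Qt)) (r : List Qt) (h : ∀ z, ρ.lookup z = some (T z)) :
    (simI G d0 t ρ r).eval O = t.eval (patchI G O T) := by
  induction t with
  | leaf b => rfl
  | node w n0 n1 h0 h1 =>
    rw [simI, DT.eval_node]
    rcases hp : G.ps w with _ | ⟨z, i⟩ | ⟨l, q, i⟩
    · simp only [DT.eval_node, patchI, hp, h0, h1]
    · simp only [patchI, hp, h z]
      split_ifs
      · exact h1
      · exact h0
    · have e : (fun z => G.ln z = l ∧ ρ.lookup z = some q) = fun z => G.ln z = l ∧ T z = q := by
        funext z
        rw [h z, Option.some_inj]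
      simp only [patchI, hp, e]
      split_ifs
      · exact h1
      · exact h0

theorem isa_uq_none {α : Type} {P : α → Prop} (h : ∀ a, ¬ P a) : uq P = none := by
  unfold uq
  rw [dif_neg]
  rintro ⟨a, ha, -⟩
  exact h a ha

/-- A: the constant table; there are no inverse questions for its value `q0` -/
theorem simI_const (G : Stg Zt Qt ι) (d0 : β) (O : Lang) (q0 : Qt)
    (hq0 : ∀ w l q i, G.ps w = some (PosI.inv l q i) → q ≠ q0) (t : DT β)
    (ρ : List (Zt × Qt)) (k : ℕ) (h : ∀ z q, ρ.lookup z = some q → q = q0) (hk : t.depth ≤ k) :
    (simI G d0 t ρ (List.replicate k q0)).eval O = t.eval (patchI G O fun _ => q0) := by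
  induction t generalizing ρ k with
  | leaf b => rfl
  | node w n0 n1 h0 h1 =>
    rw [DT.depth_node] at hk
    rw [simI, DT.eval_node]
    rcases hp : G.ps w with _ | ⟨z, i⟩ | ⟨l, q, i⟩
    · simp only [DT.eval_node, patchI, hp]
      rw [h0 ρ k h (by omega), h1 ρ k h (by omega)]
    · have e : patchI G O (fun _ => q0) w = G.rd q0 i := by simp only [patchI, hp]
      rw [e]
      cases hl : ρ.lookup z with
      | some q =>
        have := h z q hl
        subst this
        simp only [hl]
        by_cases hr : G.rd q i = true
        · simp only [hr, if_true]; exact h1 ρ k h (by omega)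
        · simp only [hr]; exact h0 ρ k h (by omega)
      | none =>
        obtain ⟨k', rfl⟩ : ∃ k', k = k' + 1 := ⟨k - 1, by omega⟩
        have hρ' : ∀ z' q, ((z, q0) :: ρ).lookup z' = some q → q = q0 := by
          intro z' q hz
          rw [List.lookup_cons] at hz
          split at hz
          · exact (Option.some.inj hz).symm
          · exact h z' q hz
        simp only [hl, List.replicate_succ]
        by_cases hr : G.rd q0 i = true
        · simp only [hr, if_true]; exact h1 _ k' hρ' (by omega)
        · simp only [hr]; exact h0 _ k' hρ' (by omega)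
    · have hne := hq0 w l q i hp
      have e1 : uq (fun z => G.ln z = l ∧ ρ.lookup z = some q) = none :=
        isa_uq_none fun z hz => hne (h z q hz.2)
      have e2 : uq (fun z : Zt => G.ln z = l ∧ q0 = q) = none :=
        isa_uq_none fun z hz => hne hz.2.symm
      simp only [patchI, hp, e1, e2]
      by_cases hr : G.rz none i = true
      · simp only [hr, if_true]; exact h1 ρ k h (by omega)
      · simp only [hr]; exact h0 ρ k h (by omega)






end A

end Pool.Agent.TD.IS
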