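import Pool.Agent.Lib_helper74.IS.Loc
import Pool.Agent.Lib_helper74.NE.Univ

/-!
# Project ISO, block B: Cantor-Bernstein as in Berman and Hartmanis
-/

set_option autoImplicit false

namespace Pool.Agent.TD.IS

open Pool.Agent.CK Pool.Agent.CKP

/-! ### tracing back the chain -/

/-- State: is the trace finished, the answer, the current string. -/
def isb_step (g g' : Str → Str) (s : Bool × Bool × Str) : Bool × Bool × Str :=
  if s.1 = true then s
  else if (g' s.2.2).isEmpty = true then (true, true, s.2.2)
  else if (g (g' s.2.2).tail).isEmpty = true then (true, false, s.2.2)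
  else (false, true, (g (g' s.2.2).tail).tail)

/-- The trace with `n` steps. -/
def isb_N (g g' : Str → Str) : ℕ → Str → Bool
  | 0, _ => true
  | n + 1, x => if (g' x).isEmpty = true then true
      else if (g (g' x).tail).isEmpty = true then false
      else isb_N g g' n (g (g' x).tail).tail

/-- Does the chain of `x` start on the side of `A`? -/
def isb_side (g g' : Str → Str) (x : Str) : Bool := isb_N g g' (x.length + 1) x

theorem isb_fold_done (g g' : Str → Str) (l : List Unit) (b : Bool) (x : Str) :
    l.foldl (fun s _ => isb_step g g' s) (true, b, x) = (true, b, x) := by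
  induction l with
  | nil => rfl
  | cons a l ih =>
    rw [List.foldl_cons]
    exact ih

theorem isb_fold (g g' : Str → Str) (l : List Unit) (x : Str) :
    (l.foldl (fun s _ => isb_step g g' s) (false, true, x)).2.1 = isb_N g g' l.length x := by
  induction l generalizing x with
  | nil => rfl
  | cons a l ih =>
    rw [List.foldl_cons, List.length_cons]
    unfold isb_step isb_N
    simp only [Bool.false_eq_true, if_false]
    split
    · rw [show (fun (s : Bool × Bool × Str) (_ : Unit) =>
        if s.1 = true then s
        else if (g' s.2.2).isEmpty = true then (true, true, s.2.2)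
        else if (g (g' s.2.2).tail).isEmpty = true then (true, false, s.2.2)
        else (false, true, (g (g' s.2.2).tail).tail)) = fun s _ => isb_step g g' s from rfl,
        isb_fold_done]
    · split
      · rw [show (fun (s : Bool × Bool × Str) (_ : Unit) =>
          if s.1 = true then s
          else if (g' s.2.2).isEmpty = true then (true, true, s.2.2)
          else if (g (g' s.2.2).tail).isEmpty = true then (true, false, s.2.2)
          else (false, true, (g (g' s.2.2).tail).tail)) = fun s _ => isb_step g g' s from rfl,
          isb_fold_done]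
      · exact ih _

section

variable {f g f' g' : Str → Str}

/-- the relation between a length-increasing function and its inverse -/
structure isb_Inv (f g : Str → Str) : Prop where
  len : ∀ x : Str, x.length < (f x).length
  inv : ∀ x, g (f x) = true :: x
  non : ∀ y, (∀ x, f x ≠ y) → g y = []

theorem isb_pre (h : isb_Inv f g) {y : Str} (hy : ¬(g y).isEmpty = true) :
    f (g y).tail = y ∧ (g y).tail.length < y.length := by
  have h1 : ∃ x, f x = y := by
    by_contra hc
    refine hy ?_
    rw [h.non y fun x hx => hc ⟨x, hx⟩]
    rfl
  obtain ⟨x, rfl⟩ := h1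
  rw [h.inv x]
  exact ⟨rfl, h.len x⟩

theorem isb_stable (h : isb_Inv f g) (h' : isb_Inv f' g') (n : ℕ) :
    ∀ (m : ℕ) (x : Str), x.length < n → x.length < m →
      isb_N g g' n x = isb_N g g' m x := by
  induction n with
  | zero => intro m x hx; omega
  | succ n ih =>
    intro m x hx hm
    obtain ⟨m, rfl⟩ : ∃ m', m = m' + 1 := ⟨m - 1, by omega⟩
    unfold isb_N
    split_ifs with h1 h2
    · rfl
    · rfl
    · have a := (isb_pre h' h1).2
      have b := (isb_pre h h2).2
      exact ih m _ (by omega) (by omega)

theorem isb_side_eq (h : isb_Inv f g) (h' : isb_Inv f' g') (x : Str) :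
    isb_side g g' x = if (g' x).isEmpty = true then true
      else if (g (g' x).tail).isEmpty = true then false
      else isb_side g g' (g (g' x).tail).tail := by
  unfold isb_side
  rw [isb_N]
  split_ifs with h1 h2
  · rfl
  · rfl
  · have a := (isb_pre h' h1).2
    have b := (isb_pre h h2).2
    exact isb_stable h h' _ _ _ (by omega) (by omega)

theorem isb_fold_len (h : isb_Inv f g) (h' : isb_Inv f' g') (l : List Unit)
    (s : Bool × Bool × Str) :
    (l.foldl (fun s _ => isb_step g g' s) s).2.2.length ≤ s.2.2.length := by
  induction l generalizing s with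
  | nil => exact le_rfl
  | cons a l ih =>
    rw [List.foldl_cons]
    refine (ih _).trans ?_
    unfold isb_step
    split_ifs with h0 h1 h2
    · exact le_rfl
    · exact le_rfl
    · exact le_rfl
    · have a := (isb_pre h' h1).2
      have b := (isb_pre h h2).2
      show (g (g' s.2.2).tail).tail.length ≤ s.2.2.length
      omega

theorem isb_step_ptime {O : Lang} (hg : PTime O g) (hg' : PTime O g') :
    PTime O (isb_step g g') := by
  have h0 : PTime O (fun s : Bool × Bool × Str => s.1) := PTime.id.fst
  have h2 : PTime O (fun s : Bool × Bool × Str => s.2.2) := PTime.id.snd.snd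
  have h3 : PTime O (fun s : Bool × Bool × Str => g' s.2.2) := PTime.comp hg' h2
  have h4 : PTime O (fun s : Bool × Bool × Str => g (g' s.2.2).tail) :=
    PTime.comp hg (PTime.tail h3)
  unfold isb_step
  exact PTime.ite h0 PTime.id (PTime.ite (PTime.isNil h3)
    ((PTime.const true).pair ((PTime.const true).pair h2))
    (PTime.ite (PTime.isNil h4) ((PTime.const true).pair ((PTime.const false).pair h2))
      ((PTime.const false).pair ((PTime.const true).pair (PTime.tail h4)))))

theorem isb_side_ptime {O : Lang} (hg : PTime O g) (hg' : PTime O g') (h : isb_Inv f g)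
    (h' : isb_Inv f' g') : PTime O (isb_side g g') := by
  have hl : PTime O (fun x : Str => List.replicate (x.length + 1) ()) :=
    ((UPoly.id).add (UPoly.const 1)).comp PTime.id
  have key : PTime O (fun x : Str => (List.replicate (x.length + 1) ()).foldl
      (fun s _ => isb_step g g' s) (false, true, x)) := by
    refine PTime.foldl (l := fun x : Str => List.replicate (x.length + 1) ())
      (i := fun x : Str => (false, true, x)) (s := fun _ s _ => isb_step g g' s) hl
      ((PTime.const false).pair ((PTime.const true).pair PTime.id))
      ((isb_step_ptime hg hg').comp PTime.id.snd.fst) (4 * Polynomial.X + 9) ?_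
    intro x l' _
    have h1 := isb_fold_len h h' l' (false, true, x)
    generalize l'.foldl (fun s _ => isb_step g g' s) (false, true, x) = s at h1
    obtain ⟨a, b, y⟩ := s
    simp only at h1
    have h2 := (num_list_sz y).2
    have h3 := (num_list_sz x).1
    have h4 := (num_bool_sz a).2
    have h5 := (num_bool_sz b).2
    rw [sz_pair, sz_pair]
    simp only [Polynomial.eval_add, Polynomial.eval_mul, Polynomial.eval_ofNat,
      Polynomial.eval_X]
    omega
  refine (PTime.fst (PTime.snd key)).of_eq fun x => ?_
  rw [isb_fold, List.length_replicate]
  rfl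

end

/-- B: Cantor-Bernstein as in Berman and Hartmanis -/
theorem iso_of_redI {O A B : Lang} (h : RedI O A B) (h' : RedI O B A) : PIso O A B := by
  obtain ⟨f, g, hf, hg, hA, hl, hi, hn⟩ := h
  obtain ⟨f', g', hf', hg', hB, hl', hi', hn'⟩ := h'
  have I : isb_Inv f g := ⟨hl, hi, hn⟩
  have I' : isb_Inv f' g' := ⟨hl', hi', hn'⟩
  have pf := ptime_of_inFP hf
  have pg := ptime_of_inFP hg
  have pf' := ptime_of_inFP hf'
  have pg' := ptime_of_inFP hg'
  have ps := isb_side_ptime pg pg' I I'
  -- the three rules for `side`
  have r1 : ∀ x, isb_side g g' x = false → ¬(g' x).isEmpty = true := by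
    intro x hx hc
    rw [isb_side_eq I I' x, if_pos hc] at hx
    exact Bool.noConfusion hx
  have r2 : ∀ y, isb_side g g' (f' y) =
      if (g y).isEmpty = true then false else isb_side g g' (g y).tail := by
    intro y
    rw [isb_side_eq I I' (f' y), hi' y]
    rfl
  refine ⟨fun x => if isb_side g g' x = true then f x else (g' x).tail,
    fun y => if (!(g y).isEmpty && isb_side g g' (g y).tail) = true then (g y).tail else f' y,
    inFP_of (PTime.ite ps pf (PTime.tail pg')),
    inFP_of (PTime.ite ((PTime.isNil pg).not.and (PTime.comp ps (PTime.tail pg)))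
      (PTime.tail pg) pf'), fun x => ?_, fun y => ?_, fun x => ?_⟩
  · simp only
    by_cases hx : isb_side g g' x = true
    · rw [if_pos hx, hi x]
      simp [hx]
    · rw [if_neg hx]
      have hx' : isb_side g g' x = false := by simpa using hx
      obtain ⟨h1, -⟩ := isb_pre I' (r1 x hx')
      have h2 := r2 (g' x).tail
      rw [h1, hx'] at h2
      rw [if_neg ?_, h1]
      intro hc
      rw [Bool.and_eq_true, Bool.not_eq_true'] at hc
      rw [if_neg (by rw [hc.1]; exact Bool.false_ne_true), hc.2] at h2
      exact Bool.noConfusion h2
  · simp only
    by_cases hy : (!(g y).isEmpty && isb_side g g' (g y).tail) = true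
    · rw [if_pos hy]
      rw [Bool.and_eq_true, Bool.not_eq_true'] at hy
      rw [if_pos hy.2]
      exact (isb_pre I (by rw [hy.1]; exact Bool.false_ne_true)).1
    · rw [if_neg hy]
      have h2 := r2 y
      have h3 : isb_side g g' (f' y) = false := by
        rw [h2]
        split_ifs with hc
        · rfl
        · cases h4 : isb_side g g' (g y).tail
          · rfl
          · exfalso
            apply hy
            rw [h4, Bool.and_true, Bool.not_eq_true']
            simpa using hc
      rw [h3, if_neg Bool.false_ne_true, hi' y]
      rfl
  · simp only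
    by_cases hx : isb_side g g' x = true
    · rw [if_pos hx]
      exact hA x
    · rw [if_neg hx]
      have hx' : isb_side g g' x = false := by simpa using hx
      obtain ⟨h1, -⟩ := isb_pre I' (r1 x hx')
      rw [hB (g' x).tail, h1]

end Pool.Agent.TD.IS
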