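import Pool.Agent.Lib_helper74.IS.Loc
import Pool.Agent.Lib_helper74.NE.Univ
set_option autoImplicit false

namespace Pool.Agent.TD.IS

open Pool.Agent.CK

theorem manyOne_of_redI {O A B : Lang} (h : RedI O A B) : ManyOneReducible O A B := by
  obtain ⟨f, g, hf, hg, hA, -⟩ := h
  exact ⟨f, hf, hA⟩

theorem nonuniform_of_turing {O A B : Lang} (h : TuringReducible O A B) :
    NonuniformTuringReducible O A B := by
  obtain ⟨c, k, h⟩ := h
  exact ⟨c, k, fun _ => [], fun n => by simp, fun x => h x⟩



end Pool.Agent.TD.IS
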