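import Pool.Agent.Lib_helper74.IS.Loc
import Pool.Agent.Lib_helper74.NE.Univ
/-!
# Project ISO, block P: codes and positions
-/

set_option autoImplicit false

namespace Pool.Agent.TD.IS

open Pool.Agent.CK

theorem isp_ones (l : ℕ) : ones (l + 1) = true :: ones l := rfl

theorem idec_icode (l : ℕ) (q : Str) : idec (icode l q) = some (l, q) := by
  induction l with
  | zero => rfl
  | succ l ih =>
    have h : icode (l + 1) q = true :: icode l q := rfl
    rw [h]
    unfold idec
    rw [ih]
    rfl

theorem idec_eq {w : Str} {p : ℕ × Str} (h : idec w = some p) : w = icode p.1 p.2 := by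
  induction w generalizing p with
  | nil => exact absurd h (by unfold idec; simp)
  | cons b w ih =>
    cases b with
    | false =>
      unfold idec at h
      rw [Option.some.injEq] at h
      subst h
      rfl
    | true =>
      unfold idec at h
      rw [Option.map_eq_some_iff] at h
      obtain ⟨p', hp', h⟩ := h
      subst h
      rw [ih hp']
      rfl

theorem icode_length (l : ℕ) (q : Str) : (icode l q).length = l + 1 + q.length := by
  unfold icode ones
  rw [List.length_append, List.length_replicate, List.length_cons]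
  omega

theorem icode_mem {k l : ℕ} {q : Str} (h1 : sm k ≤ l + 2) (h2 : l + 2 < sM k)
    (h3 : sM k ≤ q.length) (h4 : q.length ≤ qb k) : icode l q ∈ ISet k :=
  ⟨l, q, idec_icode l q, ⟨h1, h2⟩, h3, h4⟩

theorem iset_length {k : ℕ} {w : Str} (h : w ∈ ISet k) :
    sm k + sM k ≤ w.length + 1 ∧ w.length + 2 ≤ sM k + qb k + 1 := by
  obtain ⟨l, q, h1, ⟨h2, h3⟩, h4, h5⟩ := h
  have h6 := idec_eq h1
  have h7 : w.length = l + 1 + q.length := by rw [h6]; exact icode_length l q
  omega

theorem posK_len {k : ℕ} {w : Str} {p : PosI (Z k) (Q k) (ℕ × Bool)} (h2 : 2 * sj k ≤ su k)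
    (h : posK k w = some p) : sD k ≤ w.length := by
  unfold posK at h
  split at h
  · exact absurd h (by simp)
  · rename_i p' hp'
    have h3 := tdec_eq hp'
    have h4 : alen p'.1.1 p'.1.2 ≤ w.length := by
      have := key_le w
      rw [h3, key_taddr, ← h3] at this
      exact this
    refine le_trans ?_ h4
    rw [← sta_pow k h2]
    unfold alen
    have hs1 : 1 ≤ sm k := Nat.one_le_two_pow
    split_ifs at h with ha hb
    · rw [ha.1]
      exact Nat.pow_le_pow_left ha.2.1 _
    · rw [hb.1]
      have h5 := (iset_length hb.2).1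
      have h6 : 1 ≤ sM k := Nat.one_le_two_pow
      calc sm k ^ se k ^ 2 ≤ sm k ^ (se k + 1) ^ 2 :=
            Nat.pow_le_pow_right hs1 (Nat.pow_le_pow_left (Nat.le_succ _) 2)
        _ ≤ (p'.1.2.length + 2) ^ (se k + 1) ^ 2 := Nat.pow_le_pow_left (by omega) _

theorem posK_inv {k : ℕ} {w : Str} {l : ℕ} {q : Q k} {i : ℕ × Bool}
    (h : posK k w = some (PosI.inv l q i)) : sM k ≤ q.1.length := by
  unfold posK at h
  split at h
  · exact absurd h (by simp)
  · rename_i p' hp'
    split_ifs at h with ha hb
    · exact absurd (Option.some.inj h) (by simp)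
    · have h1 := Option.some.inj h
      rw [PosI.inv.injEq] at h1
      rw [← h1.2.1]
      exact hb.2.choose_spec.choose_spec.2.2.1








end Pool.Agent.TD.IS
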