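import Pool.Agent.Lib_helper74.IS.Loc
import Pool.Agent.Lib_helper74.NE.Univ
set_option autoImplicit false

namespace Pool.Agent.TD.IS

open Pool.Agent.CK

/-- W -/
theorem eval_PTW (i : ℕ) (w x : Str) (O : Lang) : (PTW i w x).eval O = PLW i w O x := by
  rw [PTW, DT.eval_map, mach_eval_runTree]
  rfl

theorem isw_depth (i : ℕ) (w x : Str) : (PTW i w x).depth ≤ (x.length + 2) ^ ex i := by
  rw [PTW, DT.depth_map]
  exact mach_depth_runTree _ _

theorem isw_allQ (i : ℕ) (w x : Str) (a : ℕ) (hx : x.length ≤ a) (hw : w.length ≤ a) :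
    (PTW i w x).AllQ (fun u => u.length ≤ a + (x.length + 2) ^ ex i) := by
  rw [PTW]
  apply mach_allQ_map
  refine (mach_allQ_runTree _ _ a (a + (x.length + 2) ^ ex i)
    (mach_init_len x w a hx hw) le_rfl).mono ?_
  intro u hu
  exact le_of_lt hu

/-- W -/
theorem invTreeW_depth (i : ℕ) (w : Str) (n : ℕ) (x : Str) (hx : x.length = 2 * n) :
    (invTreeW i w n x).depth ≤ n * (3 * n + 2) ^ ex i := by
  have h := seqT_depth ((List.range n).map fun k => PTW i w (x ++ unitv n k))
    ((3 * n + 2) ^ ex i) (by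
      intro t ht
      obtain ⟨k, _, rfl⟩ := List.mem_map.1 ht
      have e : (x ++ unitv n k).length = 3 * n := by
        rw [List.length_append, unitv_length, hx]; omega
      have := isw_depth i w (x ++ unitv n k)
      rwa [e] at this)
  rw [List.length_map, List.length_range] at h
  exact h

theorem isw_num (a j : ℕ) : (a + (a + 2) ^ j) + (a + 2) ^ j ≤ (a + 2) ^ (j + 1) := by
  have h1 : 1 ≤ (a + 2) ^ j := Nat.one_le_pow _ _ (by omega)
  rw [pow_succ]
  nlinarith

theorem isw_qb (k : ℕ) : qb k = (3 * sn k + 2) ^ (sj k + 1) := rfl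

attribute [local irreducible] sn qb sD sj su in
/-- W -/
theorem invTreeW_allQ (k : ℕ) (w : Str) (hw : w.length ≤ (3 * sn k + 2) ^ sj k) (x : Str)
    (hx : x.length = 2 * sn k) :
    (invTreeW (iM (sj k)) w (sn k) x).AllQ fun u => u.length ≤ qb k := by
  refine seqT_allQ _ _ ?_
  intro t ht
  obtain ⟨l, _, rfl⟩ := List.mem_map.1 ht
  have e : (x ++ unitv (sn k) l).length = 3 * sn k := by
    rw [List.length_append, unitv_length, hx]; omega
  have h1 := isw_allQ (iM (sj k)) w (x ++ unitv (sn k) l) (3 * sn k + (3 * sn k + 2) ^ sj k)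
    (e.le.trans (Nat.le_add_right _ _)) (hw.trans (Nat.le_add_left _ _))
  rw [e] at h1
  refine h1.mono ?_
  intro u hu
  have h2 : (3 * sn k + 2) ^ ex (iM (sj k)) ≤ (3 * sn k + 2) ^ sj k :=
    Nat.pow_le_pow_right (by omega) (hpr_ex_le k)
  have h3 := isw_num (3 * sn k) (sj k)
  rw [isw_qb]
  exact hu.trans ((Nat.add_le_add_left h2 _).trans h3)

/-- W -/
theorem invTreeW_correct (S : Sec) (i : ℕ) (w : Str) (n : ℕ) (x : X (2 * n)) (O : Lang)
    (h : ∀ k < n, PLW i w O (x.1 ++ unitv n k) = VV S (x.1 ++ unitv n k)) :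
    (invTreeW i w n x.1).eval O = vv S n x := by
  unfold invTreeW
  rw [seqT_eval]
  have hl := vv_length S n x
  apply List.ext_getElem
  · simp [hl]
  · intro k h1 h2
    have hk : k < n := by omega
    simp only [List.getElem_map, List.getElem_range]
    rw [eval_PTW, h k hk, VV_unit S n x k hk, List.getD_eq_getElem _ _ h2]

/-- W -/
theorem exists_PLW {O A B : Lang} (h : NonuniformTuringReducible O A B) :
    ∃ i, ∀ n, ∃ w : Str, w.length ≤ (n + 2) ^ ex i ∧
      ∀ x : Str, x.length = n → PLW i w (join O B) x = A x := by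
  obtain ⟨c, k, w, hw, h1⟩ := h
  refine ⟨Nat.pair (Encodable.encode c) k, fun n => ⟨w n, ?_, ?_⟩⟩
  · rw [enum_ex]
    exact hw n
  · rintro x rfl
    unfold PLW
    rw [enum_prog, enum_ex, Bool.eq_iff_iff, ← (h1 x).2]
    unfold accB Accepts
    simp [List.isEmpty_iff]






end Pool.Agent.TD.IS
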