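import Pool.Agent.Lib_helper74.IS.Loc
import Pool.Agent.Lib_helper74.NE.Univ
import Pool.Agent.Lib_helper74.IS.Blk.P
import Pool.Agent.Lib_helper74.IS.Blk.W
set_option autoImplicit false

namespace Pool.Agent.TD.IS

open Pool.Agent.CK

attribute [local irreducible] sn qb sD sj su in
theorem isc_corr {F : ℕ → Lang → Lang} {S : Sec} {k : ℕ} {O O' : Lang} (h5 : 5 ≤ sj k)
    (h2 : 2 * sj k ≤ su k) (h : ∀ w : Str, w.length < sD k → O w = O' w) (hC : CorrW F S k O) :
    CorrW F S k O' := by
  obtain ⟨w, hw, hC⟩ := hC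
  refine ⟨w, hw, ?_⟩
  intro x i hi
  rw [← hC x i hi]
  rw [← eval_PTW, ← eval_PTW]
  have hqb : qb k < sD k := by have := fits k h5 h2; omega
  have hall := invTreeW_allQ k w hw x.1 x.2
  -- one component of the sequence
  have hone : (PTW (iM (sj k)) w (x.1 ++ unitv (sn k) i)).AllQ fun u => u.length ≤ qb k := by
    have key : ∀ (l : List (DT Bool)) (P : Str → Prop), (seqT l).AllQ P → ∀ t ∈ l, t.AllQ P := by
      have hb : ∀ (t : DT Bool) (f : Bool → DT Str) (P : Str → Prop), (t.bind f).AllQ P → t.AllQ P := by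
        intro t f P
        induction t with
        | leaf b => intro _; trivial
        | node w n0 n1 h0 h1 => intro h; exact ⟨h.1, h0 h.2.1, h1 h.2.2⟩
      have hb2 : ∀ (t : DT Bool) (f : Bool → DT Str) (P : Str → Prop), (t.bind f).AllQ P →
          ∃ b, (f b).AllQ P := by
        intro t f P
        induction t with
        | leaf b => intro h; exact ⟨b, h⟩
        | node w n0 n1 h0 h1 => intro h; exact h0 h.2.1
      have hm : ∀ (t : DT Str) (g : Str → Str) (P : Str → Prop), (t.map g).AllQ P → t.AllQ P := by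
        intro t g P
        induction t with
        | leaf b => intro _; trivial
        | node w n0 n1 h0 h1 => intro h; exact ⟨h.1, h0 h.2.1, h1 h.2.2⟩
      intro l P
      induction l with
      | nil => intro _ t ht; simp at ht
      | cons a l ih =>
        intro h t ht
        rw [seqT] at h
        rcases List.mem_cons.1 ht with rfl | ht
        · exact hb _ _ _ h
        · obtain ⟨b, hb'⟩ := hb2 _ _ _ h
          exact ih (hm _ _ _ hb') t ht
    exact key _ _ hall _ (List.mem_map.2 ⟨i, List.mem_range.2 hi, rfl⟩)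
  symm
  apply DT.eval_join_congr _ _ hone
  · intro u hu
    simp only [List.length_cons] at hu
    exact h u (by omega)
  · intro u hu
    simp only [List.length_cons] at hu
    exact elC_congr F h5 h2 h u (by omega)

/-- C -/
theorem corrW_congr {F : ℕ → Lang → Lang} {S : Sec} {k : ℕ} {O O' : Lang} (h5 : 5 ≤ sj k)
    (h2 : 2 * sj k ≤ su k) (h : ∀ w : Str, w.length < sD k → O w = O' w) :
    CorrW F S k O ↔ CorrW F S k O' :=
  ⟨isc_corr h5 h2 h, isc_corr h5 h2 fun w hw => (h w hw).symm⟩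

theorem isc_invTab {k : ℕ} {Tab Tab' : ℕ → Str → Str}
    (hT : ∀ z : Str, z.length + 2 < sM k → Tab (se k) z = Tab' (se k) z) (w : Str) :
    invTab Tab k w = invTab Tab' k w := by
  have e : (fun y : Z k => ∃ l q, idec w = some (l, q) ∧ y.1.length = l ∧ Tab (se k) y.1 = q) =
      fun y : Z k => ∃ l q, idec w = some (l, q) ∧ y.1.length = l ∧ Tab' (se k) y.1 = q := by
    funext y
    rw [hT y.1 y.2.2]
  unfold invTab
  rw [e]

/-- C -/
theorem goalI_congr {F : ℕ → Lang → Lang} {S : Sec} {k : ℕ} {O O' : Lang}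
    {Tab Tab' : ℕ → Str → Str} (h5 : 5 ≤ sj k)
    (h2 : 2 * sj k ≤ su k) (h : ∀ w : Str, w.length < sD k → O w = O' w)
    (hT : ∀ z : Str, z.length + 2 < sM k → Tab (se k) z = Tab' (se k) z)
    (hI : ∀ w ∈ ISet k, Tab (se k + 1) w = Tab' (se k + 1) w) (hG : GoalI F S k O Tab) :
    GoalI F S k O' Tab' := by
  obtain ⟨h1, h3, h4⟩ := hG
  refine ⟨fun z hz => by rw [← hT z hz.2]; exact h1 z hz, fun w hw => ?_, fun hC z hz => ?_⟩
  · rw [← hI w hw, h3 w hw]
    exact isc_invTab hT w
  · obtain ⟨a1, a2, a3⟩ := h4 ((isc_corr h5 h2 fun w hw => (h w hw).symm) hC) z hz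
    refine ⟨?_, ?_, ?_⟩
    · rw [← hT z hz.2, ← elC_congr F h5 h2 h _ (h1 z hz), ← elN_congr F h5 h2 h z hz]
      exact a1
    · rw [← hT z hz.2]
      exact a2
    · intro z' hz' he
      rw [← hT z hz.2, ← hT z' hz'] at he
      exact a3 z' hz' he

theorem isc_corr_agree {F : ℕ → Lang → Lang} {S S' : Sec} {k : ℕ} {O : Lang}
    (h : S.f (sn k) = S'.f (sn k)) (hc : CorrW F S k O) : CorrW F S' k O := by
  obtain ⟨w, hw, hc⟩ := hc
  refine ⟨w, hw, fun x i hi => ?_⟩
  rw [hc x i hi]
  apply agr_VV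
  have e : (x.1 ++ unitv (sn k) i).length / 3 = sn k := by
    rw [List.length_append, agr_unitv_length, x.2]
    omega
  rw [e, h]

/-- C -/
theorem goalI_agree (F : ℕ → Lang → Lang) (k : ℕ) (h5 : 5 ≤ sj k) (h2 : 2 * sj k ≤ su k) :
    ∃ b, ∀ S S' Tab Tab', Agree b S S' Tab Tab' → GoalI F S' k (orc S' Tab') Tab' →
      GoalI F S k (orc S Tab) Tab := by
  refine ⟨sD k + sn k + (se k + 1) + sM k + (sM k + qb k), fun S S' Tab Tab' hA hG => ?_⟩
  have hO : ∀ w : Str, w.length < sD k → orc S' Tab' w = orc S Tab w := by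
    intro w hw
    exact (orc_agree hA w (by omega)).symm
  have hT : ∀ z : Str, z.length + 2 < sM k → Tab' (se k) z = Tab (se k) z := by
    intro z hz
    exact (hA.2 (se k) (by omega) z (by omega)).symm
  have hI : ∀ w ∈ ISet k, Tab' (se k + 1) w = Tab (se k + 1) w := by
    intro w hw
    have h1 := (iset_length hw).2
    exact (hA.2 (se k + 1) (by omega) w (by omega)).symm
  have hG' : GoalI F S' k (orc S Tab) Tab := goalI_congr h5 h2 hO hT hI hG
  exact ⟨hG'.1, hG'.2.1, fun hc => hG'.2.2 (isc_corr_agree (hA.1 (sn k) (by omega)).2 hc)⟩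




end Pool.Agent.TD.IS
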