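import Pool.Agent.Lib_helper74.IS.Loc
import Pool.Agent.Lib_helper74.NE.Univ
set_option autoImplicit false

namespace Pool.Agent.TD.IS

open Pool.Agent.CK

section isxtree

variable {β Zt Qt ι : Type} [DecidableEq Zt]

omit [DecidableEq Zt] in
theorem isx_eval_none (G : Stg Zt Qt ι) (O : Lang) (T : Zt → Qt) (w : List Bool) (n0 n1 : DT β)
    (h : G.ps w = none) : (DT.node w n0 n1).eval (patchI G O T) =
      (if O w = true then n1 else n0).eval (patchI G O T) := by
  rw [DT.eval_node]
  have h1 : patchI G O T w = O w := by
    unfold patchI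
    rw [h]
  rw [h1]
  split_ifs <;> rfl

omit [DecidableEq Zt] in
theorem isx_eval_dir (G : Stg Zt Qt ι) (O : Lang) (T : Zt → Qt) (w : List Bool) (n0 n1 : DT β)
    {z : Zt} {i : ι} (h : G.ps w = some (PosI.dir z i)) {q : Qt} (hT : T z = q) :
    (DT.node w n0 n1).eval (patchI G O T) =
      (if G.rd q i = true then n1 else n0).eval (patchI G O T) := by
  rw [DT.eval_node]
  have h1 : patchI G O T w = G.rd q i := by
    unfold patchI
    rw [h]
    simp only [hT]
  rw [h1]
  split_ifs <;> rfl

omit [DecidableEq Zt] in
theorem isx_eval_inv (G : Stg Zt Qt ι) (O : Lang) (T : Zt → Qt) (w : List Bool) (n0 n1 : DT β)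
    {l : ℕ} {q : Qt} {i : ι} (h : G.ps w = some (PosI.inv l q i)) :
    (DT.node w n0 n1).eval (patchI G O T) =
      (if G.rz (uq fun z => G.ln z = l ∧ T z = q) i = true then n1 else n0).eval
        (patchI G O T) := by
  rw [DT.eval_node]
  have h1 : patchI G O T w = G.rz (uq fun z => G.ln z = l ∧ T z = q) i := by
    unfold patchI
    rw [h]
  rw [h1]
  split_ifs <;> rfl

theorem isx_evM_none (G : Stg Zt Qt ι) (O : Lang) (T : Zt → Qt) (ρ : List (Zt × Qt))
    (w : List Bool) (n0 n1 : DT β) (h : G.ps w = none) :
    (evM G T (DT.node w n0 n1) ρ).eval O =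
      (evM G T (if O w = true then n1 else n0) ρ).eval O := by
  have h1 : evM G T (DT.node w n0 n1) ρ = DT.node w (evM G T n0 ρ) (evM G T n1 ρ) := by
    rw [evM, h]
  rw [h1, DT.eval_node]
  split_ifs <;> rfl

theorem isx_evM_some (G : Stg Zt Qt ι) (T : Zt → Qt) (ρ : List (Zt × Qt))
    (w : List Bool) (n0 n1 : DT β) {z : Zt} {i : ι} (h : G.ps w = some (PosI.dir z i)) {q : Qt}
    (hq : ρ.lookup z = some q) :
    evM G T (DT.node w n0 n1) ρ = evM G T (if G.rd q i = true then n1 else n0) ρ := by
  rw [evM, h]
  simp only [hq]
  split_ifs <;> rfl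

theorem isx_evM_new (G : Stg Zt Qt ι) (T : Zt → Qt) (ρ : List (Zt × Qt))
    (w : List Bool) (n0 n1 : DT β) {z : Zt} {i : ι} (h : G.ps w = some (PosI.dir z i))
    (hq : ρ.lookup z = none) :
    evM G T (DT.node w n0 n1) ρ =
      evM G T (if G.rd (T z) i = true then n1 else n0) ((z, T z) :: ρ) := by
  rw [evM, h]
  simp only [hq]
  split_ifs <;> rfl

theorem isx_evM_inv (G : Stg Zt Qt ι) (T : Zt → Qt) (ρ : List (Zt × Qt))
    (w : List Bool) (n0 n1 : DT β) {l : ℕ} {q : Qt} {i : ι}
    (h : G.ps w = some (PosI.inv l q i)) :
    evM G T (DT.node w n0 n1) ρ =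
      evM G T (if G.rz (uq fun z => G.ln z = l ∧ ρ.lookup z = some q) i = true then n1 else n0)
        ρ := by
  rw [evM, h]
  dsimp only
  split_ifs <;> rfl

/-- if no unknown entry has length `l` and value `q`, then the answer from the memory is correct -/
theorem isx_uq (G : Stg Zt Qt ι) (T : Zt → Qt) (ρ : List (Zt × Qt)) (l : ℕ) (q : Qt)
    (hT : ∀ z q, ρ.lookup z = some q → T z = q)
    (h : ∀ z, ρ.lookup z = none → G.ln z = l → T z ≠ q) :
    (uq fun z => G.ln z = l ∧ T z = q) = uq fun z => G.ln z = l ∧ ρ.lookup z = some q := by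
  congr 1
  funext z
  apply propext
  constructor
  · rintro ⟨h1, h2⟩
    refine ⟨h1, ?_⟩
    cases hz : ρ.lookup z with
    | none => exact absurd h2 (h z hz h1)
    | some q' => rw [← h2, hT z q' hz]
  · rintro ⟨h1, h2⟩
    exact ⟨h1, hT z q h2⟩

end isxtree

section prob

variable {Xf Zt Qt ι : Type} [Fintype Xf] [Fintype Zt] [DecidableEq Zt] [Fintype Qt]
  [DecidableEq Qt]

theorem isx_ind_nonneg (b : Bool) : 0 ≤ ind b := by
  unfold ind
  split_ifs
  · exact zero_le_one
  · exact le_refl _

/-- the probability that the unknown entry `z` has the value `q` and `E` holds -/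
theorem isx_hit {μ : Zt → Qt → ℝ} (hμ : IsPD μ) (E : (Zt → Qt) → Bool) (c : ℝ) (m : ℕ)
    (hc : ∀ ρ : List (Zt × Qt), ρ.length ≤ m → Pr μ ρ (fun T => ind (E T)) ≤ c)
    (ρ : List (Zt × Qt)) (hρ : ρ.length + 1 ≤ m) (z : Zt) (hz : ρ.lookup z = none) (q : Qt) :
    Pr μ ρ (fun T => ind (E T && decide (T z = q))) ≤ c * μ z q := by
  rw [Pr_reveal μ ρ z hz]
  have h1 : ∀ q' : Qt, μ z q' * Pr μ ((z, q') :: ρ) (fun T => ind (E T && decide (T z = q))) ≤
      if q' = q then c * μ z q else 0 := by
    intro q'
    have hself : ((z, q') :: ρ).lookup z = some q' := by simp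
    by_cases hq : q' = q
    · subst hq
      rw [if_pos rfl]
      have h2 : Pr μ ((z, q') :: ρ) (fun T => ind (E T && decide (T z = q'))) ≤ c := by
        rw [Pr_congr μ ((z, q') :: ρ) (G := fun T => ind (E T)) (fun T hT => by
          have := hT z q' hself
          simp [this])]
        exact hc _ (by simpa using hρ)
      have h3 := mul_le_mul_of_nonneg_left h2 ((hμ z).1 q')
      linarith
    · rw [if_neg hq]
      rw [Pr_congr μ ((z, q') :: ρ) (G := fun _ => 0) (fun T hT => by
        have := hT z q' hself
        simp [this, hq, ind])]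
      have h4 : Pr μ ((z, q') :: ρ) (fun _ => (0 : ℝ)) = 0 := by
        unfold Pr
        simp
      rw [h4, mul_zero]
  refine (Finset.sum_le_sum fun q' _ => h1 q').trans ?_
  rw [Finset.sum_ite_eq' Finset.univ q (fun _ => c * μ z q)]
  simp

/-- X: Lemma X of the paper -/
theorem lemX {μ : Zt → Qt → ℝ} (hμ : IsPD μ) (G : Stg Zt Qt ι) (O : Lang)
    (E : (Zt → Qt) → Bool)
    (c ε : ℝ) (hc0 : 0 ≤ c) (hε0 : 0 ≤ ε) (hε : ∀ l q, ∑ z with G.ln z = l, μ z q ≤ ε) (m : ℕ)
    (hc : ∀ ρ : List (Zt × Qt), ρ.length ≤ m → Pr μ ρ (fun T => ind (E T)) ≤ c)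
    (τ : DT Bool) (ρ : List (Zt × Qt)) (hρ : ρ.length + τ.depth ≤ m) :
    Pr μ ρ (fun T => ind (E T && τ.eval (patchI G O T))) ≤
      c * (Pr μ ρ (fun T => ind ((evM G T τ ρ).eval O)) + τ.depth * ε) := by
  induction τ generalizing ρ with
  | leaf b =>
    have h1 : (fun T : Zt → Qt => ind ((evM G T (DT.leaf b) ρ).eval O)) = fun _ => ind b := by
      funext T
      rw [evM, DT.eval_leaf]
    rw [h1]
    simp only [DT.eval_leaf]
    cases b with
    | true =>
      have h2 : Pr μ ρ (fun _ => ind true) = 1 := by
        have : ind true = 1 := by simp [ind]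
        rw [this]
        exact Pr_one hμ ρ
      rw [h2]
      simp only [Bool.and_true]
      have h3 := hc ρ (by omega)
      have h4 : (0 : ℝ) ≤ ((DT.leaf true).depth : ℝ) * ε := by positivity
      have h5 := mul_nonneg hc0 h4
      linarith
    | false =>
      have h2 : Pr μ ρ (fun T => ind (E T && false)) = 0 := by
        unfold Pr
        simp [ind]
      rw [h2]
      have h3 : 0 ≤ Pr μ ρ (fun _ => ind false) := by
        unfold Pr
        simp [ind]
      have h4 : (0 : ℝ) ≤ ((DT.leaf false).depth : ℝ) * ε := by positivity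
      exact mul_nonneg hc0 (by linarith)
  | node w n0 n1 h0 h1 =>
    rw [DT.depth_node] at hρ
    -- the induction hypothesis for a child
    have hchild : ∀ (b : Bool) (ρ' : List (Zt × Qt)), ρ'.length ≤ ρ.length + 1 →
        Pr μ ρ' (fun T => ind (E T && (if b = true then n1 else n0).eval (patchI G O T))) ≤
          c * (Pr μ ρ' (fun T => ind ((evM G T (if b = true then n1 else n0) ρ').eval O)) +
            (((DT.node w n0 n1).depth : ℝ) - 1) * ε) := by
      intro b ρ' hρ'
      have hd : ∀ n : ℕ, n + 1 ≤ (DT.node w n0 n1).depth →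
          (n : ℝ) * ε ≤ (((DT.node w n0 n1).depth : ℝ) - 1) * ε := by
        intro n hn
        have : ((n + 1 : ℕ) : ℝ) ≤ ((DT.node w n0 n1).depth : ℝ) := by exact_mod_cast hn
        push_cast at this
        exact mul_le_mul_of_nonneg_right (by linarith) hε0
      cases b with
      | true =>
        simp only [if_true]
        refine (h1 ρ' (by omega)).trans (mul_le_mul_of_nonneg_left ?_ hc0)
        have := hd n1.depth (by rw [DT.depth_node]; omega)
        linarith
      | false =>
        simp only [Bool.false_eq_true, if_false]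
        refine (h0 ρ' (by omega)).trans (mul_le_mul_of_nonneg_left ?_ hc0)
        have := hd n0.depth (by rw [DT.depth_node]; omega)
        linarith
    have hlast : ∀ x : ℝ, c * (x + (((DT.node w n0 n1).depth : ℝ) - 1) * ε) ≤
        c * (x + ((DT.node w n0 n1).depth : ℝ) * ε) := by
      intro x
      refine mul_le_mul_of_nonneg_left ?_ hc0
      nlinarith
    cases hp : G.ps w with
    | none =>
      have e1 : ∀ T : Zt → Qt, (DT.node w n0 n1).eval (patchI G O T) =
        (if O w = true then n1 else n0).eval (patchI G O T) :=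
        fun T => isx_eval_none G O T w n0 n1 hp
      have e2 : ∀ T : Zt → Qt, (evM G T (DT.node w n0 n1) ρ).eval O =
        (evM G T (if O w = true then n1 else n0) ρ).eval O :=
        fun T => isx_evM_none G O T ρ w n0 n1 hp
      simp only [e1, e2]
      exact (hchild (O w) ρ (by omega)).trans (hlast _)
    | some p =>
      cases p with
      | dir z i =>
        cases hl : ρ.lookup z with
        | some q =>
          have e2 : ∀ T : Zt → Qt, evM G T (DT.node w n0 n1) ρ =
            evM G T (if G.rd q i = true then n1 else n0) ρ :=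
            fun T => isx_evM_some G T ρ w n0 n1 hp hl
          simp only [e2]
          rw [Pr_congr μ ρ (G := fun T => ind (E T && (if G.rd q i = true then n1 else n0).eval
            (patchI G O T))) (fun T hT => by
              rw [isx_eval_dir G O T w n0 n1 hp (hT z q hl)])]
          exact (hchild (G.rd q i) ρ (by omega)).trans (hlast _)
        | none =>
          rw [Pr_reveal μ ρ z hl, Pr_reveal μ ρ z hl (fun T => ind ((evM G T
            (DT.node w n0 n1) ρ).eval O))]
          have h2 : ∀ q : Qt, μ z q * Pr μ ((z, q) :: ρ)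
              (fun T => ind (E T && (DT.node w n0 n1).eval (patchI G O T))) ≤
              μ z q * (c * (Pr μ ((z, q) :: ρ)
                (fun T => ind ((evM G T (DT.node w n0 n1) ρ).eval O)) +
                  (((DT.node w n0 n1).depth : ℝ) - 1) * ε)) := by
            intro q
            refine mul_le_mul_of_nonneg_left ?_ ((hμ z).1 q)
            have hself : ((z, q) :: ρ).lookup z = some q := by simp
            rw [Pr_congr μ ((z, q) :: ρ) (G := fun T => ind (E T &&
                (if G.rd q i = true then n1 else n0).eval (patchI G O T))) (fun T hT => by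
                  rw [isx_eval_dir G O T w n0 n1 hp (hT z q hself)]),
              Pr_congr μ ((z, q) :: ρ) (F := fun T => ind ((evM G T (DT.node w n0 n1) ρ).eval O))
                (G := fun T => ind ((evM G T (if G.rd q i = true then n1 else n0)
                  ((z, q) :: ρ)).eval O)) (fun T hT => by
                  rw [isx_evM_new G T ρ w n0 n1 hp hl, hT z q hself])]
            exact hchild (G.rd q i) ((z, q) :: ρ) (by simp)
          refine (Finset.sum_le_sum fun q _ => h2 q).trans ?_
          refine le_trans (le_of_eq ?_) (hlast _)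
          have h3 : ∀ q : Qt, μ z q * (c * (Pr μ ((z, q) :: ρ)
                (fun T => ind ((evM G T (DT.node w n0 n1) ρ).eval O)) +
                  (((DT.node w n0 n1).depth : ℝ) - 1) * ε)) =
              c * (μ z q * Pr μ ((z, q) :: ρ)
                (fun T => ind ((evM G T (DT.node w n0 n1) ρ).eval O))) +
              μ z q * (c * ((((DT.node w n0 n1).depth : ℝ) - 1) * ε)) := by
            intro q
            ring
          simp_rw [h3]
          rw [Finset.sum_add_distrib, ← Finset.mul_sum, ← Finset.sum_mul, (hμ z).2]
          ring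
      | inv l q i =>
        set a : Bool := G.rz (uq fun z => G.ln z = l ∧ ρ.lookup z = some q) i with ha
        have e2 : ∀ T : Zt → Qt, evM G T (DT.node w n0 n1) ρ =
          evM G T (if a = true then n1 else n0) ρ :=
          fun T => isx_evM_inv G T ρ w n0 n1 hp
        simp only [e2]
        set S : Finset Zt := Finset.univ.filter (fun z => ρ.lookup z = none ∧ G.ln z = l) with hS
        have h2 : Pr μ ρ (fun T => ind (E T && (DT.node w n0 n1).eval (patchI G O T))) ≤
            Pr μ ρ (fun T => ind (E T && (if a = true then n1 else n0).eval (patchI G O T)) +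
              ∑ z ∈ S, ind (E T && decide (T z = q))) := by
          refine Pr_mono_on hμ ρ fun T hT => ?_
          have hnn : ∀ z ∈ S, 0 ≤ ind (E T && decide (T z = q)) := fun z _ => isx_ind_nonneg _
          by_cases hz : ∃ z, ρ.lookup z = none ∧ G.ln z = l ∧ T z = q
          · obtain ⟨z, hz1, hz2, hz3⟩ := hz
            have hzS : z ∈ S := by
              rw [hS, Finset.mem_filter]
              exact ⟨Finset.mem_univ _, hz1, hz2⟩
            have h3 := Finset.single_le_sum hnn hzS
            have h4 : ind (E T && (DT.node w n0 n1).eval (patchI G O T)) ≤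
                ind (E T && decide (T z = q)) := by
              rw [hz3]
              cases E T with
              | true =>
                simp only [Bool.true_and, decide_true]
                unfold ind
                split_ifs <;> simp_all
              | false => simp
            have h5 := isx_ind_nonneg (E T && (if a = true then n1 else n0).eval (patchI G O T))
            linarith
          · push Not at hz
            have h3 : (DT.node w n0 n1).eval (patchI G O T) =
                (if a = true then n1 else n0).eval (patchI G O T) := by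
              rw [isx_eval_inv G O T w n0 n1 hp, isx_uq G T ρ l q hT
                (fun z h1 h2 => hz z h1 h2)]
            rw [h3]
            have h4 := Finset.sum_nonneg hnn
            linarith
        refine h2.trans ?_
        rw [Pr_add, pm_sum]
        have h3 : ∑ z ∈ S, Pr μ ρ (fun T => ind (E T && decide (T z = q))) ≤ c * ε := by
          have h4 : ∀ z ∈ S, Pr μ ρ (fun T => ind (E T && decide (T z = q))) ≤ c * μ z q := by
            intro z hz
            rw [hS, Finset.mem_filter] at hz
            exact isx_hit hμ E c m hc ρ (by omega) z hz.2.1 q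
          refine (Finset.sum_le_sum h4).trans ?_
          rw [← Finset.mul_sum]
          refine mul_le_mul_of_nonneg_left ?_ hc0
          refine le_trans ?_ (hε l q)
          refine Finset.sum_le_sum_of_subset_of_nonneg ?_ fun z _ _ => (hμ z).1 q
          intro z hz
          rw [hS, Finset.mem_filter] at hz
          rw [Finset.mem_filter]
          exact ⟨Finset.mem_univ _, hz.2.2⟩
        have h5 := hchild a ρ (by omega)
        refine (add_le_add h5 h3).trans (le_of_eq ?_)
        ring


end prob

end Pool.Agent.TD.IS
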