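import Pool.Agent.Lib_helper74.IS.Loc
import Pool.Agent.Lib_helper74.NE.Univ
import Pool.Agent.Lib_helper74.IS.Blk.X
set_option autoImplicit false

namespace Pool.Agent.TD.IS

open Pool.Agent.CK

section

variable {Xf Zt Qt ι : Type} [Fintype Xf] [Fintype Zt] [DecidableEq Zt] [Fintype Qt]
  [DecidableEq Qt]

theorem isd_ind_nonneg (b : Bool) : 0 ≤ ind b := by
  unfold ind
  split_ifs <;> norm_num

theorem isd_ind_le_one (b : Bool) : ind b ≤ 1 := by
  unfold ind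
  split_ifs <;> norm_num

theorem isd_Pr_nonneg {μ : Zt → Qt → ℝ} (hμ : IsPD μ) (ρ : List (Zt × Qt)) {F : (Zt → Qt) → ℝ}
    (h : ∀ T, 0 ≤ F T) : 0 ≤ Pr μ ρ F := by
  unfold Pr
  exact Finset.sum_nonneg fun T _ => mul_nonneg (pm_prod_nonneg hμ ρ T) (h T)

theorem isd_step {μ : Zt → Qt → ℝ} (hμ : IsPD μ) (G : Stg Zt Qt ι) (O : Lang) (B : Xf → DT Bool)
    (d : ℕ) (hd : ∀ x, (B x).depth ≤ d) (ε : ℝ) (hε0 : 0 ≤ ε)
    (hε : ∀ l q, ∑ z with G.ln z = l, μ z q ≤ ε) (W : ℝ) (E : (Zt → Qt) → Bool)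
    (hE : ∀ T, E T = true → W ≤ ∑ x, ind ((B x).eval (patchI G O T)))
    (α : ℝ) (hα : 0 < α) (K : ℝ) (hK : 0 < K) (m : ℕ) (ρ : List (Zt × Qt)) (hρ : ρ.length ≤ m)
    (hp : K ≤ Pr μ ρ (fun T => ind (E T)))
    (hW : Pr μ ρ (fun T => ∑ x, ind ((evM G T (B x) ρ).eval O)) <
      W / (1 + α) - Fintype.card Xf * (d * ε)) :
    ∃ ρ' : List (Zt × Qt), ρ'.length ≤ m + d ∧ (1 + α) * K ≤ Pr μ ρ' (fun T => ind (E T)) := by
  by_contra hcon
  push Not at hcon
  have hα1 : 0 < 1 + α := by linarith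
  have hc : 0 ≤ (1 + α) * K := by positivity
  have hS0 : 0 ≤ Pr μ ρ (fun T => ∑ x, ind ((evM G T (B x) ρ).eval O)) :=
    isd_Pr_nonneg hμ ρ fun T => Finset.sum_nonneg fun x _ => isd_ind_nonneg _
  have hcd : 0 ≤ (Fintype.card Xf : ℝ) * (d * ε) := by positivity
  have hW0 : 0 < W := by
    have h1 : 0 < W / (1 + α) := by linarith
    have h2 := mul_pos h1 hα1
    rwa [div_mul_cancel₀ _ hα1.ne'] at h2
  have htree : ∀ x, Pr μ ρ (fun T => ind (E T && (B x).eval (patchI G O T))) ≤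
      ((1 + α) * K) * (Pr μ ρ (fun T => ind ((evM G T (B x) ρ).eval O)) + d * ε) := by
    intro x
    refine (lemX hμ G O E ((1 + α) * K) ε hc hε0 hε (m + d) (fun ρ' hρ' => (hcon ρ' hρ').le)
      (B x) ρ (by have := hd x; omega)).trans ?_
    have h1 : ((B x).depth : ℝ) ≤ d := by exact_mod_cast hd x
    gcongr
  have hsum : Pr μ ρ (fun T => ∑ x, ind (E T && (B x).eval (patchI G O T))) ≤
      ((1 + α) * K) * (Pr μ ρ (fun T => ∑ x, ind ((evM G T (B x) ρ).eval O)) +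
        Fintype.card Xf * (d * ε)) := by
    rw [pm_sum, pm_sum]
    calc ∑ x, Pr μ ρ (fun T => ind (E T && (B x).eval (patchI G O T)))
        ≤ ∑ x, ((1 + α) * K) * (Pr μ ρ (fun T => ind ((evM G T (B x) ρ).eval O)) + d * ε) :=
          Finset.sum_le_sum fun x _ => htree x
      _ = _ := by
          rw [← Finset.mul_sum, Finset.sum_add_distrib, Finset.sum_const, Finset.card_univ,
            nsmul_eq_mul]
  have hlow : W * Pr μ ρ (fun T => ind (E T)) ≤
      Pr μ ρ (fun T => ∑ x, ind (E T && (B x).eval (patchI G O T))) := by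
    rw [← Pr_mul]
    refine Pr_mono hμ ρ fun T => ?_
    cases hT : E T with
    | false =>
      have h0 : ind false = 0 := by simp [ind]
      rw [h0, mul_zero]
      exact Finset.sum_nonneg fun x _ => isd_ind_nonneg _
    | true =>
      have h1 : ind true = 1 := by simp [ind]
      rw [h1, mul_one]
      simp only [Bool.true_and]
      exact hE T hT
  have h3 : W * K ≤ W * Pr μ ρ (fun T => ind (E T)) := mul_le_mul_of_nonneg_left hp hW0.le
  have h4 : ((1 + α) * K) * (Pr μ ρ (fun T => ∑ x, ind ((evM G T (B x) ρ).eval O)) +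
        Fintype.card Xf * (d * ε)) < ((1 + α) * K) * (W / (1 + α)) :=
    mul_lt_mul_of_pos_left (by linarith) (by positivity)
  have h5 : ((1 + α) * K) * (W / (1 + α)) = W * K := by field_simp
  linarith

/-- D -/
theorem doublingI {μ : Zt → Qt → ℝ} (hμ : IsPD μ) (G : Stg Zt Qt ι) (O : Lang)
    (B : Xf → DT Bool)
    (d : ℕ) (hd : ∀ x, (B x).depth ≤ d) (ε : ℝ) (hε0 : 0 ≤ ε)
    (hε : ∀ l q, ∑ z with G.ln z = l, μ z q ≤ ε) (W : ℝ) (E : (Zt → Qt) → Bool)
    (hE : ∀ T, E T = true → W ≤ ∑ x, ind ((B x).eval (patchI G O T)))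
    (α : ℝ) (hα : 0 < α) (R : ℕ) (p : ℝ) (hp : 0 < p) (hpR : 1 < (1 + α) ^ R * p)
    (hb : p ≤ Pr μ [] (fun T => ind (E T))) :
    ∃ ρ : List (Zt × Qt), ρ.length ≤ R * d ∧
      W / (1 + α) - Fintype.card Xf * (d * ε) ≤
        Pr μ ρ (fun T => ∑ x, ind ((evM G T (B x) ρ).eval O)) := by
  have hα1 : 0 < 1 + α := by linarith
  have key : ∀ i : ℕ, (∃ ρ : List (Zt × Qt), ρ.length ≤ i * d ∧
      W / (1 + α) - Fintype.card Xf * (d * ε) ≤
        Pr μ ρ (fun T => ∑ x, ind ((evM G T (B x) ρ).eval O))) ∨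
      (∃ ρ : List (Zt × Qt), ρ.length ≤ i * d ∧
        (1 + α) ^ i * p ≤ Pr μ ρ (fun T => ind (E T))) := by
    intro i
    induction i with
    | zero =>
      right
      exact ⟨[], by simp, by simpa using hb⟩
    | succ i ih =>
      rcases ih with ⟨ρ, h1, h2⟩ | ⟨ρ, h1, h2⟩
      · left
        exact ⟨ρ, h1.trans (Nat.mul_le_mul_right _ (Nat.le_succ _)), h2⟩
      · by_cases h3 : W / (1 + α) - Fintype.card Xf * (d * ε) ≤
          Pr μ ρ (fun T => ∑ x, ind ((evM G T (B x) ρ).eval O))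
        · left
          exact ⟨ρ, h1.trans (Nat.mul_le_mul_right _ (Nat.le_succ _)), h3⟩
        · right
          obtain ⟨ρ', h4, h5⟩ := isd_step hμ G O B d hd ε hε0 hε W E hE α hα ((1 + α) ^ i * p)
            (by positivity) (i * d) ρ h1 h2 (lt_of_not_ge h3)
          refine ⟨ρ', by rw [Nat.succ_mul]; exact h4, ?_⟩
          calc (1 + α) ^ (i + 1) * p = (1 + α) * ((1 + α) ^ i * p) := by ring
            _ ≤ _ := h5
  rcases key R with h | ⟨ρ, -, h2⟩
  · exact h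
  · exfalso
    have h3 : Pr μ ρ (fun T => ind (E T)) ≤ 1 := by
      rw [← Pr_one hμ ρ]
      exact Pr_mono hμ ρ fun T => isd_ind_le_one _
    linarith


end

end Pool.Agent.TD.IS
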