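import Pool.Agent.Lib_helper74.IS.Loc
import Pool.Agent.Lib_helper74.NE.Univ
set_option autoImplicit false

namespace Pool.Agent.TD.IS

open Pool.Agent.CK

section prob

variable {Xf Zt Qt ι : Type} [Fintype Xf] [Fintype Zt] [DecidableEq Zt] [Fintype Qt]
  [DecidableEq Qt]

section ish_aux

variable {β : Type}

omit [Fintype Zt] [Fintype Qt] [DecidableEq Qt] in
theorem ish_ev_none (G : Stg Zt Qt ι) (O : Lang) (T : Zt → Qt) (w : Str) (n0 n1 : DT Bool)
    (h : G.ps w = none) (ρ : List (Zt × Qt)) :
    (evM G T (DT.node w n0 n1) ρ).eval O =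
      (evM G T (if O w = true then n1 else n0) ρ).eval O := by
  rw [evM, h]
  simp only [DT.eval_node]
  split_ifs <;> rfl

omit [Fintype Zt] [Fintype Qt] [DecidableEq Qt] in
theorem ish_ev_some (G : Stg Zt Qt ι) (O : Lang) (T : Zt → Qt) (w : Str) (n0 n1 : DT Bool)
    {z : Zt} {i : ι} (h : G.ps w = some (PosI.dir z i)) (ρ : List (Zt × Qt)) {q : Qt}
    (hl : ρ.lookup z = some q) :
    (evM G T (DT.node w n0 n1) ρ).eval O =
      (evM G T (if G.rd q i = true then n1 else n0) ρ).eval O := by
  rw [evM, h]
  simp only [hl]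
  split_ifs <;> rfl

omit [Fintype Zt] [Fintype Qt] [DecidableEq Qt] in
theorem ish_ev_new (G : Stg Zt Qt ι) (O : Lang) (T : Zt → Qt) (w : Str) (n0 n1 : DT Bool)
    {z : Zt} {i : ι} (h : G.ps w = some (PosI.dir z i)) (ρ : List (Zt × Qt))
    (hl : ρ.lookup z = none) {q : Qt} (hq : T z = q) :
    (evM G T (DT.node w n0 n1) ρ).eval O =
      (evM G T (if G.rd q i = true then n1 else n0) ((z, q) :: ρ)).eval O := by
  subst hq
  rw [evM, h]
  simp only [hl]
  split_ifs <;> rfl

omit [Fintype Zt] [Fintype Qt] [DecidableEq Qt] in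
theorem ish_ev_inv (G : Stg Zt Qt ι) (O : Lang) (T : Zt → Qt) (w : Str) (n0 n1 : DT Bool)
    {l : ℕ} {q : Qt} {i : ι} (h : G.ps w = some (PosI.inv l q i)) (ρ : List (Zt × Qt)) :
    (evM G T (DT.node w n0 n1) ρ).eval O =
      (evM G T (if G.rz (uq fun z => G.ln z = l ∧ ρ.lookup z = some q) i = true then n1 else n0)
        ρ).eval O := by
  rw [evM, h]
  simp only
  split_ifs <;> rfl

omit [Fintype Zt] [Fintype Qt] [DecidableEq Qt] in
theorem ish_sim_none (G : Stg Zt Qt ι) (O : Lang) (w : Str) (n0 n1 : DT Bool)
    (h : G.ps w = none) (ρ : List (Zt × Qt)) (r : List Qt) :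
    (simI G false (DT.node w n0 n1) ρ r).eval O =
      (simI G false (if O w = true then n1 else n0) ρ r).eval O := by
  rw [simI, h]
  simp only [DT.eval_node]
  split_ifs <;> rfl

omit [Fintype Zt] [Fintype Qt] [DecidableEq Qt] in
theorem ish_sim_some (G : Stg Zt Qt ι) (O : Lang) (w : Str) (n0 n1 : DT Bool)
    {z : Zt} {i : ι} (h : G.ps w = some (PosI.dir z i)) (ρ : List (Zt × Qt)) {q : Qt}
    (hl : ρ.lookup z = some q) (r : List Qt) :
    (simI G false (DT.node w n0 n1) ρ r).eval O =
      (simI G false (if G.rd q i = true then n1 else n0) ρ r).eval O := by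
  rw [simI, h]
  simp only [hl]
  split_ifs <;> rfl

omit [Fintype Zt] [Fintype Qt] [DecidableEq Qt] in
theorem ish_sim_new (G : Stg Zt Qt ι) (O : Lang) (w : Str) (n0 n1 : DT Bool)
    {z : Zt} {i : ι} (h : G.ps w = some (PosI.dir z i)) (ρ : List (Zt × Qt))
    (hl : ρ.lookup z = none) (q : Qt) (r : List Qt) :
    (simI G false (DT.node w n0 n1) ρ (q :: r)).eval O =
      (simI G false (if G.rd q i = true then n1 else n0) ((z, q) :: ρ) r).eval O := by
  rw [simI, h]
  simp only [hl]
  split_ifs <;> rfl

omit [Fintype Zt] [Fintype Qt] [DecidableEq Qt] in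
theorem ish_sim_inv (G : Stg Zt Qt ι) (O : Lang) (w : Str) (n0 n1 : DT Bool)
    {l : ℕ} {q : Qt} {i : ι} (h : G.ps w = some (PosI.inv l q i)) (ρ : List (Zt × Qt))
    (r : List Qt) :
    (simI G false (DT.node w n0 n1) ρ r).eval O =
      (simI G false (if G.rz (uq fun z => G.ln z = l ∧ ρ.lookup z = some q) i = true then n1
        else n0) ρ r).eval O := by
  rw [simI, h]
  simp only
  split_ifs <;> rfl

end ish_aux

omit [Fintype Xf] in
theorem ish_gen (ν : Bool → Qt → ℝ) (hν : ∀ b, (∀ q, 0 ≤ ν b q) ∧ ∑ q, ν b q = 1)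
    (κ : Zt → Bool) (G : Stg Zt Qt ι) (O : Lang) (δ : ℝ) (hδ : 0 ≤ δ) (A : DT Bool)
    (ρ : List (Zt × Qt)) (K : ℕ)
    (hD : ∀ pre post : List Qt, pre.length ≤ K → post.length ≤ K →
      ∑ q, ν true q * ind ((simI G false A ρ (pre ++ q :: post)).eval O) ≤
        ∑ q, ν false q * ind ((simI G false A ρ (pre ++ q :: post)).eval O) + δ)
    (τ : DT Bool) (ρ' : List (Zt × Qt)) (pre : List Qt) (K' : ℕ) (hτ : τ.depth ≤ K')
    (hpre : pre.length + K' ≤ K)
    (hsim : ∀ r : List Qt, (simI G false A ρ (pre ++ r)).eval O = (simI G false τ ρ' r).eval O) :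
    Pr (fun z => ν (κ z)) ρ' (fun T => ind ((evM G T τ ρ').eval O)) ≤
      exL (ν false) K' (fun r => ind ((simI G false τ ρ' r).eval O)) + K' * δ := by
  have hμ : IsPD (fun z : Zt => ν (κ z)) := fun z => hν (κ z)
  induction τ generalizing ρ' pre K' with
  | leaf b =>
    have h1 : ∀ r : List Qt, (simI G false (DT.leaf b) ρ' r).eval O = b := fun r => rfl
    have h1' : ∀ T : Zt → Qt, (evM G T (DT.leaf b) ρ').eval O = b := fun T => rfl
    simp only [h1, h1']
    rw [hyb_exL_const (hν false).2]
    have h2 : Pr (fun z => ν (κ z)) ρ' (fun _ => ind b) = ind b := by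
      have h3 := Pr_mul (fun z => ν (κ z)) ρ' (ind b) (fun _ => (1 : ℝ))
      rw [Pr_one hμ ρ'] at h3
      simpa using h3
    rw [h2]
    have : 0 ≤ (K' : ℝ) * δ := by positivity
    linarith
  | node w n0 n1 h0 h1 =>
    -- the induction hypothesis for a child
    have hchild : ∀ (b : Bool) (ρ'' : List (Zt × Qt)) (pre' : List Qt) (K'' : ℕ),
        (DT.node w n0 n1).depth ≤ K'' + 1 → pre'.length + K'' ≤ K →
        (∀ r : List Qt, (simI G false A ρ (pre' ++ r)).eval O =
          (simI G false (if b = true then n1 else n0) ρ'' r).eval O) →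
        Pr (fun z => ν (κ z)) ρ'' (fun T => ind ((evM G T (if b = true then n1 else n0) ρ'').eval
          O)) ≤
        exL (ν false) K'' (fun r => ind ((simI G false (if b = true then n1 else n0) ρ'' r).eval O))
          + K'' * δ := by
      intro b ρ'' pre' K'' hd hp hs
      rw [DT.depth_node] at hd
      cases b with
      | true =>
        simp only [if_true] at hs ⊢
        exact h1 ρ'' pre' K'' (by omega) hp hs
      | false =>
        simp only [Bool.false_eq_true, if_false] at hs ⊢
        exact h0 ρ'' pre' K'' (by omega) hp hs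
    cases hp : G.ps w with
    | none =>
      have e : ∀ T : Zt → Qt, (evM G T (DT.node w n0 n1) ρ').eval O =
        (evM G T (if O w = true then n1 else n0) ρ').eval O :=
        fun T => ish_ev_none G O T w n0 n1 hp ρ'
      have e' : ∀ r : List Qt, (simI G false (DT.node w n0 n1) ρ' r).eval O =
        (simI G false (if O w = true then n1 else n0) ρ' r).eval O :=
        fun r => ish_sim_none G O w n0 n1 hp ρ' r
      simp only [e, e'] at hsim ⊢
      exact hchild (O w) ρ' pre K' (by omega) hpre hsim
    | some p =>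
      cases p with
      | inv l q i =>
        have e : ∀ T : Zt → Qt, (evM G T (DT.node w n0 n1) ρ').eval O =
          (evM G T (if G.rz (uq fun z => G.ln z = l ∧ ρ'.lookup z = some q) i = true then n1
            else n0) ρ').eval O :=
          fun T => ish_ev_inv G O T w n0 n1 hp ρ'
        have e' : ∀ r : List Qt, (simI G false (DT.node w n0 n1) ρ' r).eval O =
          (simI G false (if G.rz (uq fun z => G.ln z = l ∧ ρ'.lookup z = some q) i = true then n1
            else n0) ρ' r).eval O :=
          fun r => ish_sim_inv G O w n0 n1 hp ρ' r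
        simp only [e, e'] at hsim ⊢
        exact hchild _ ρ' pre K' (by omega) hpre hsim
      | dir z i =>
        cases hl : ρ'.lookup z with
        | some q =>
          have e : ∀ T : Zt → Qt, (evM G T (DT.node w n0 n1) ρ').eval O =
            (evM G T (if G.rd q i = true then n1 else n0) ρ').eval O :=
            fun T => ish_ev_some G O T w n0 n1 hp ρ' hl
          have e' : ∀ r : List Qt, (simI G false (DT.node w n0 n1) ρ' r).eval O =
            (simI G false (if G.rd q i = true then n1 else n0) ρ' r).eval O :=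
            fun r => ish_sim_some G O w n0 n1 hp ρ' hl r
          simp only [e, e'] at hsim ⊢
          exact hchild (G.rd q i) ρ' pre K' (by omega) hpre hsim
        | none =>
          obtain ⟨K'', rfl⟩ : ∃ K'', K' = K'' + 1 := by
            rw [DT.depth_node] at hτ
            exact ⟨K' - 1, by omega⟩
          -- the value after the question, in terms of the original simulation
          set S : Qt → ℝ := fun q => exL (ν false) K''
            (fun r => ind ((simI G false A ρ (pre ++ q :: r)).eval O)) with hS
          have hR : exL (ν false) (K'' + 1)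
              (fun r => ind ((simI G false (DT.node w n0 n1) ρ' r).eval O)) =
              ∑ q, ν false q * S q := by
            change ∑ q, ν false q * exL (ν false) K''
              (fun r => ind ((simI G false (DT.node w n0 n1) ρ' (q :: r)).eval O)) = _
            refine Finset.sum_congr rfl fun q _ => ?_
            simp only [hS, hsim]
          have hL : Pr (fun z => ν (κ z)) ρ'
              (fun T => ind ((evM G T (DT.node w n0 n1) ρ').eval O)) ≤
              ∑ q, ν (κ z) q * (S q + K'' * δ) := by
            rw [Pr_reveal (fun z => ν (κ z)) ρ' z hl]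
            refine Finset.sum_le_sum fun q _ => mul_le_mul_of_nonneg_left ?_ ((hν (κ z)).1 q)
            have hself : ((z, q) :: ρ').lookup z = some q := by simp
            rw [Pr_congr (fun z => ν (κ z)) ((z, q) :: ρ') (G := fun T =>
              ind ((evM G T (if G.rd q i = true then n1 else n0) ((z, q) :: ρ')).eval O))
              (fun T hT => by
                rw [ish_ev_new G O T w n0 n1 hp ρ' hl (hT z q hself)])]
            have e' : ∀ r : List Qt, (simI G false A ρ ((pre ++ [q]) ++ r)).eval O =
                (simI G false (if G.rd q i = true then n1 else n0) ((z, q) :: ρ') r).eval O := by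
              intro r
              rw [← ish_sim_new G O w n0 n1 hp ρ' hl q r, ← hsim (q :: r)]
              simp
            have h2 := hchild (G.rd q i) ((z, q) :: ρ') (pre ++ [q]) K'' hτ
              (by simp only [List.length_append, List.length_singleton]; omega) e'
            refine h2.trans (le_of_eq ?_)
            congr 1
            simp only [hS, ← e']
            simp only [List.append_assoc, List.singleton_append]
          have hL2 : ∑ q, ν (κ z) q * (S q + K'' * δ) = ∑ q, ν (κ z) q * S q + K'' * δ := by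
            simp_rw [mul_add]
            rw [Finset.sum_add_distrib, ← Finset.sum_mul, (hν (κ z)).2, one_mul]
          have hmain : ∑ q, ν (κ z) q * S q ≤ ∑ q, ν false q * S q + δ := by
            cases hκ : κ z with
            | false => linarith
            | true =>
              have e1 : ∀ b : Bool, ∑ q, ν b q * S q = exL (ν false) K'' (fun r =>
                  ∑ q, ν b q * ind ((simI G false A ρ (pre ++ q :: r)).eval O)) := fun b =>
                (hyb_exL_sum (ν false) K'' Finset.univ (ν b)
                  (fun q r => ind ((simI G false A ρ (pre ++ q :: r)).eval O))).symm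
              rw [e1 true, e1 false]
              have e2 := hyb_exL_add (ν false) K'' (fun r =>
                  ∑ q, ν false q * ind ((simI G false A ρ (pre ++ q :: r)).eval O)) (fun _ => δ)
              rw [hyb_exL_const (hν false).2] at e2
              rw [← e2]
              refine hyb_exL_mono (hν false).1 K'' fun r hr => ?_
              exact hD pre r (by omega) (by omega)
          rw [hR]
          rw [hL2] at hL
          push_cast
          linarith

/-- H -/
theorem hybridI (ν : Bool → Qt → ℝ) (hν : ∀ b, (∀ q, 0 ≤ ν b q) ∧ ∑ q, ν b q = 1)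
    (κ : Zt → Bool) (G : Stg Zt Qt ι) (O : Lang) (δ : ℝ) (hδ : 0 ≤ δ) (A : DT Bool)
    (ρ : List (Zt × Qt)) (K : ℕ) (hK : A.depth ≤ K)
    (hD : ∀ pre post : List Qt, pre.length ≤ K → post.length ≤ K →
      ∑ q, ν true q * ind ((simI G false A ρ (pre ++ q :: post)).eval O) ≤
        ∑ q, ν false q * ind ((simI G false A ρ (pre ++ q :: post)).eval O) + δ) :
    Pr (fun z => ν (κ z)) ρ (fun T => ind ((evM G T A ρ).eval O)) ≤
      exL (ν false) K (fun r => ind ((simI G false A ρ r).eval O)) + K * δ :=
  ish_gen ν hν κ G O δ hδ A ρ K hD A ρ [] K hK (by simp) (fun r => by simp)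

/-- H -/
theorem averagingI (ν : Bool → Qt → ℝ) (hν : ∀ b, (∀ q, 0 ≤ ν b q) ∧ ∑ q, ν b q = 1)
    (κ : Zt → Bool) (G : Stg Zt Qt ι) (O : Lang)
    (B : Xf → DT Bool) (d : ℕ) (hd : ∀ x, (B x).depth ≤ d) (δ : ℝ) (hδ : 0 ≤ δ)
    (ρ : List (Zt × Qt))
    (hD : ∀ x, ∀ pre post : List Qt, pre.length ≤ d → post.length ≤ d →
      ∑ q, ν true q * ind ((simI G false (B x) ρ (pre ++ q :: post)).eval O) ≤
        ∑ q, ν false q * ind ((simI G false (B x) ρ (pre ++ q :: post)).eval O) + δ)
    (W : ℝ) (hW : W ≤ Pr (fun z => ν (κ z)) ρ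
      (fun T => ∑ x, ind ((evM G T (B x) ρ).eval O))) :
    ∃ r : List Qt, r.length = d ∧
      W - Fintype.card Xf * (d * δ) ≤ ∑ x, ind ((simI G false (B x) ρ r).eval O) := by
  have h1 : ∀ x, Pr (fun z => ν (κ z)) ρ (fun T => ind ((evM G T (B x) ρ).eval O)) ≤
      exL (ν false) d (fun r => ind ((simI G false (B x) ρ r).eval O)) + d * δ := by
    intro x
    exact hybridI ν hν κ G O δ hδ (B x) ρ d (hd x) (hD x)
  obtain ⟨r, hr, hr2⟩ := avg_exists (hν false).1 (hν false).2 d
    (fun r => ∑ x, ind ((simI G false (B x) ρ r).eval O))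
  refine ⟨r, hr, le_trans ?_ hr2⟩
  have h2 : exL (ν false) d (fun r => ∑ x, ind ((simI G false (B x) ρ r).eval O)) =
      ∑ x, exL (ν false) d (fun r => ind ((simI G false (B x) ρ r).eval O)) := by
    have h := hyb_exL_sum (ν false) d Finset.univ (fun _ : Xf => (1 : ℝ))
      (fun x r => ind ((simI G false (B x) ρ r).eval O))
    simpa only [one_mul] using h
  have h3 := pm_sum Finset.univ (fun z => ν (κ z)) ρ
    (fun (x : Xf) T => ind ((evM G T (B x) ρ).eval O))
  rw [h3] at hW
  have h4 := Finset.sum_le_sum fun x (_ : x ∈ (Finset.univ : Finset Xf)) => h1 x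
  rw [Finset.sum_add_distrib, Finset.sum_const, nsmul_eq_mul, Finset.card_univ] at h4
  rw [h2]
  linarith

end prob

end Pool.Agent.TD.IS
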