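import Pool.Agent.Lib_helper74.IS.Loc
import Pool.Agent.Lib_helper74.NE.Univ
import Pool.Agent.Lib_helper74.IS.Blk.D
import Pool.Agent.Lib_helper74.IS.Blk.H
/-!
# Block F: probability that an adversary survives
-/

set_option autoImplicit false

namespace Pool.Agent.TD.IS

open Pool.Agent.CK

section prob

variable {Xf Zt Qt ι : Type} [Fintype Xf] [Fintype Zt] [DecidableEq Zt] [Fintype Qt]
  [DecidableEq Qt]

open Classical in
/-- F: from `doublingI` and `averagingI` -/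
theorem failprobG (ν : Bool → Qt → ℝ) (hν : ∀ b, (∀ q, 0 ≤ ν b q) ∧ ∑ q, ν b q = 1)
    (κ : Zt → Bool) (G : Stg Zt Qt ι) (O : Lang)
    (B : Xf → DT Bool) (d : ℕ) (hd : ∀ x, (B x).depth ≤ d) (ε δ : ℝ) (hε0 : 0 ≤ ε) (hδ : 0 ≤ δ)
    (hε : ∀ l q, ∑ z with G.ln z = l, ν (κ z) q ≤ ε) (W : ℝ)
    (α : ℝ) (hα : 0 < α) (R : ℕ) (p : ℝ) (hp : 0 < p) (hpR : 1 < (1 + α) ^ R * p)
    (hD : ∀ x, ∀ (ρ : List (Zt × Qt)) (pre post : List Qt), ρ.length ≤ R * d →
      pre.length ≤ d → post.length ≤ d →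
      ∑ q, ν true q * ind ((simI G false (B x) ρ (pre ++ q :: post)).eval O) ≤
        ∑ q, ν false q * ind ((simI G false (B x) ρ (pre ++ q :: post)).eval O) + δ)
    (hsim : ∀ (ρ : List (Zt × Qt)) (r : List Qt), ρ.length ≤ R * d → r.length = d →
      ∑ x, ind ((simI G false (B x) ρ r).eval O) <
        W / (1 + α) - Fintype.card Xf * (d * (ε + δ))) :
    Pr (fun z => ν (κ z)) [] (fun T => ind (decide
      (W ≤ ∑ x, ind ((B x).eval (patchI G O T))))) ≤ p := by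
  by_contra hcon
  rw [not_le] at hcon
  have hμ : IsPD (fun z : Zt => ν (κ z)) := fun z => hν (κ z)
  obtain ⟨ρ, hρ, hρW⟩ := doublingI hμ G O B d hd ε hε0 hε W
    (fun T => decide (W ≤ ∑ x, ind ((B x).eval (patchI G O T))))
    (fun T hT => of_decide_eq_true hT) α hα R p hp hpR hcon.le
  obtain ⟨r, hr, hrW⟩ := averagingI ν hν κ G O B d hd δ hδ ρ
    (fun x pre post h1 h2 => hD x ρ pre post hρ h1 h2)
    (W / (1 + α) - Fintype.card Xf * (d * ε)) hρW
  have h := hsim ρ r hρ hr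
  have e : (Fintype.card Xf : ℝ) * (d * (ε + δ)) =
      Fintype.card Xf * (d * ε) + Fintype.card Xf * (d * δ) := by ring
  rw [e] at h
  linarith

end prob


end Pool.Agent.TD.IS
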