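import Pool.Agent.Lib_helper74.IS.Loc
import Pool.Agent.Lib_helper74.NE.Univ
set_option autoImplicit false

namespace Pool.Agent.TD.IS

open Pool.Agent.CK

section prob

variable {Xf Zt Qt ι : Type} [Fintype Xf] [Fintype Zt] [DecidableEq Zt] [Fintype Qt]
  [DecidableEq Qt]

/-- one round, as a property of a pair of distributions -/
def iss_Good {Qt : Type} [Fintype Qt] (c : Qt → Bool) (D : Set (Qt → Bool)) (N : ℕ)
    (R : Finset Qt) (ν : Bool → Qt → ℝ) : Prop :=
  (∀ b, (∀ q, 0 ≤ ν b q) ∧ ∑ q, ν b q = 1) ∧ (∀ b q, ν b q ≠ 0 → c q = b ∧ q ∉ R) ∧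
    ∀ f ∈ D, ∑ q, ν true q * ind (f q) ≤ ∑ q, ν false q * ind (f q) + 1 / (N : ℝ)

/-- the second alternative -/
def iss_Alt {Qt : Type} (c : Qt → Bool) (D : Set (Qt → Bool)) (N s m : ℕ) : Prop :=
  ∃ E : Finset Qt, E.card ≤ m ∧
    ∃ l : List (Qt → Bool), l.length ≤ 4 * N ^ 2 * (2 * s + 1) ∧ (∀ f ∈ l, f ∈ D) ∧
      ∃ θ ≤ l.length + 1, ∀ q, q ∉ E → c q = decide (θ ≤ l.countP fun f => f q)

omit [Fintype Qt] [DecidableEq Qt] in
theorem iss_lift {P : Qt → Prop} (D : Set (Qt → Bool)) (l' : List ({q // P q} → Bool))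
    (h : ∀ f' ∈ l', ∃ f ∈ D, f' = fun q => f q.1) :
    ∃ l : List (Qt → Bool), l' = l.map (fun f => fun q : {q // P q} => f q.1) ∧ ∀ f ∈ l, f ∈ D := by
  induction l' with
  | nil => exact ⟨[], rfl, by simp⟩
  | cons f' l' ih =>
    obtain ⟨l, hl, hlD⟩ := ih fun g hg => h g (List.mem_cons_of_mem _ hg)
    obtain ⟨f, hf, hf'⟩ := h f' List.mem_cons_self
    refine ⟨f :: l, ?_, ?_⟩
    · rw [List.map_cons, ← hl, ← hf']
    · intro g hg
      rcases List.mem_cons.1 hg with hg | hg
      · rw [hg]; exact hf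
      · exact hlD g hg

/-- one application of the hard core lemma outside `E` -/
theorem iss_step (c : Qt → Bool) (D : Set (Qt → Bool)) (N s : ℕ) (hN : 1 ≤ N)
    (hs : Fintype.card Qt ≤ 2 ^ s) (E : Finset Qt) :
    (∃ ν : Bool → Qt → ℝ, iss_Good c D N E ν) ∨ iss_Alt c D N s E.card := by
  classical
  have hs' : Fintype.card {q : Qt // q ∉ E} ≤ 2 ^ s :=
    (Fintype.card_le_of_injective (Subtype.val : {q : Qt // q ∉ E} → Qt)
      Subtype.val_injective).trans hs
  rcases hardcore (Q := {q : Qt // q ∉ E}) (fun q => c q.1)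
    {f' | ∃ f ∈ D, f' = fun q => f q.1} N s hN hs' with h | h
  · left
    obtain ⟨ν', h1, h2, h3⟩ := h
    set ν : Bool → Qt → ℝ := fun b q => if hq : q ∉ E then ν' b ⟨q, hq⟩ else 0 with hν
    have hsum : ∀ (b : Bool) (g : Qt → ℝ), ∑ q, ν b q * g q = ∑ q : {q : Qt // q ∉ E},
        ν' b q * g q.1 := by
      intro b g
      have e1 : ∑ q, ν b q * g q = ∑ q ∈ Finset.univ.filter (fun q => q ∉ E), ν b q * g q := by
        rw [Finset.sum_filter]
        refine Finset.sum_congr rfl fun q _ => ?_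
        by_cases hq : q ∉ E
        · rw [if_pos hq]
        · rw [if_neg hq]; simp only [hν]; rw [dif_neg hq, zero_mul]
      rw [e1]
      rw [Finset.sum_subtype (p := fun q => q ∉ E) (Finset.univ.filter (fun q => q ∉ E))
        (fun q => by simp) (fun q => ν b q * g q)]
      refine Finset.sum_congr rfl fun q _ => ?_
      simp only [hν]
      rw [dif_pos q.2]
    refine ⟨ν, ?_, ?_, ?_⟩
    · intro b
      constructor
      · intro q
        by_cases hq : q ∉ E
        · simp only [hν]; rw [dif_pos hq]; exact (h1 b).1 _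
        · simp only [hν]; rw [dif_neg hq]
      · have := hsum b (fun _ => 1)
        simp only [mul_one] at this
        rw [this]; exact (h1 b).2
    · intro b q hq
      by_cases hE : q ∉ E
      · simp only [hν] at hq
        rw [dif_pos hE] at hq
        exact ⟨h2 b ⟨q, hE⟩ hq, hE⟩
      · simp only [hν] at hq
        rw [dif_neg hE] at hq
        exact absurd rfl hq
    · intro f hf
      rw [hsum, hsum]
      exact h3 _ ⟨f, hf, rfl⟩
  · right
    obtain ⟨l', h1, h2, θ, hθ, h3⟩ := h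
    obtain ⟨l, hl, hlD⟩ := iss_lift (P := fun q => q ∉ E) D l' h2
    subst hl
    rw [List.length_map] at h1 hθ
    refine ⟨E, le_rfl, l, h1, hlD, θ, hθ, ?_⟩
    intro q hq
    have h4 := h3 ⟨q, hq⟩
    rw [List.countP_map] at h4
    exact h4

/-- heavy points -/
theorem iss_heavy (ν : Qt → ℝ) (h0 : ∀ q, 0 ≤ ν q) (h1 : ∑ q, ν q = 1) (h : ℕ) :
    (Finset.univ.filter fun q => 1 / 2 ^ h < ν q).card ≤ 2 ^ h := by
  have h2 : ((Finset.univ.filter fun q => 1 / 2 ^ h < ν q).card : ℝ) * (1 / 2 ^ h) ≤ 1 := by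
    have a1 := Finset.sum_le_sum (s := Finset.univ.filter fun q => 1 / 2 ^ h < ν q)
      (f := fun _ => (1 / 2 ^ h : ℝ)) (g := ν) (fun q hq => (Finset.mem_filter.1 hq).2.le)
    have a2 : ∑ q ∈ Finset.univ.filter (fun q => 1 / 2 ^ h < ν q), ν q ≤ ∑ q, ν q :=
      Finset.sum_le_sum_of_subset_of_nonneg (Finset.subset_univ _) fun q _ _ => h0 q
    rw [Finset.sum_const, nsmul_eq_mul] at a1
    rw [h1] at a2
    exact a1.trans a2
  have h3 : ((Finset.univ.filter fun q => 1 / 2 ^ h < ν q).card : ℝ) ≤ 2 ^ h := by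
    have hp : (0 : ℝ) < 2 ^ h := by positivity
    rw [mul_one_div, div_le_one hp] at h2
    exact h2
  exact_mod_cast h3

theorem iss_rounds (c : Qt → Bool) (D : Set (Qt → Bool)) (N s h : ℕ) (hN : 1 ≤ N)
    (hs : Fintype.card Qt ≤ 2 ^ s) (R : Finset Qt)
    (halt : ¬ iss_Alt c D N s (R.card + 4 ^ (h + 1))) (i : ℕ) (hi : i ≤ 2 ^ h) :
    ∃ (ν : ℕ → Bool → Qt → ℝ) (E : Finset Qt), R ⊆ E ∧ E.card ≤ R.card + i * 2 ^ (h + 1) ∧
      (∀ j < i, iss_Good c D N R (ν j)) ∧
      (∀ j < i, ∀ b q, 1 / 2 ^ h < ν j b q → q ∈ E) ∧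
      ∀ j < i, ∀ j' < j, ∀ b b' q, 1 / 2 ^ h < ν j' b q → ν j b' q = 0 := by
  classical
  induction i with
  | zero => exact ⟨fun _ _ _ => 0, R, subset_rfl, by simp, by simp, by simp, by simp⟩
  | succ i ih =>
    obtain ⟨ν, E, hRE, hE, h1, h2, h3⟩ := ih (by omega)
    have hcard : E.card ≤ R.card + 4 ^ (h + 1) := by
      refine hE.trans (Nat.add_le_add_left ?_ _)
      calc i * 2 ^ (h + 1) ≤ 2 ^ (h + 1) * 2 ^ (h + 1) := by
            apply Nat.mul_le_mul_right
            have : 2 ^ h ≤ 2 ^ (h + 1) := Nat.pow_le_pow_right (by norm_num) (by omega)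
            omega
        _ = 4 ^ (h + 1) := by rw [← Nat.mul_pow]
    rcases iss_step c D N s hN hs E with ⟨ν', hg⟩ | h'
    swap
    · exfalso; apply halt
      obtain ⟨E', hE', r⟩ := h'
      exact ⟨E', hE'.trans hcard, r⟩
    obtain ⟨g1, g2, g3⟩ := hg
    set Ht := Finset.univ.filter fun q => 1 / 2 ^ h < ν' true q with hHt
    set Hf := Finset.univ.filter fun q => 1 / 2 ^ h < ν' false q with hHf
    refine ⟨fun j => if j < i then ν j else ν', E ∪ (Ht ∪ Hf), ?_, ?_, ?_, ?_, ?_⟩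
    · exact hRE.trans Finset.subset_union_left
    · have c1 : Ht.card ≤ 2 ^ h := iss_heavy (ν' true) (g1 true).1 (g1 true).2 h
      have c2 : Hf.card ≤ 2 ^ h := iss_heavy (ν' false) (g1 false).1 (g1 false).2 h
      have c3 := Finset.card_union_le E (Ht ∪ Hf)
      have c4 := Finset.card_union_le Ht Hf
      have : (i + 1) * 2 ^ (h + 1) = i * 2 ^ (h + 1) + (2 ^ h + 2 ^ h) := by
        rw [add_mul, one_mul, pow_succ 2 h]; ring
      rw [this]
      omega
    · intro j hj
      show iss_Good c D N R (if j < i then ν j else ν')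
      by_cases hji : j < i
      · rw [if_pos hji]; exact h1 j hji
      · rw [if_neg hji]
        exact ⟨g1, fun b q hq => ⟨(g2 b q hq).1, fun hR => (g2 b q hq).2 (hRE hR)⟩, g3⟩
    · intro j hj b q hq
      have hq' : 1 / 2 ^ h < (if j < i then ν j else ν') b q := hq
      by_cases hji : j < i
      · rw [if_pos hji] at hq'
        exact Finset.mem_union_left _ (h2 j hji b q hq')
      · rw [if_neg hji] at hq'
        apply Finset.mem_union_right
        cases b with
        | true => exact Finset.mem_union_left _ (by rw [hHt]; simpa using hq')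
        | false => exact Finset.mem_union_right _ (by rw [hHf]; simpa using hq')
    · intro j hj j' hj' b b' q hq
      have hq' : 1 / 2 ^ h < (if j' < i then ν j' else ν') b q := hq
      show (if j < i then ν j else ν') b' q = 0
      have hj'i : j' < i := by omega
      rw [if_pos hj'i] at hq'
      by_cases hji : j < i
      · rw [if_pos hji]; exact h3 j hji j' hj' b b' q hq'
      · rw [if_neg hji]
        by_contra hne
        exact (g2 b' q hne).2 (h2 j' hj'i b q hq')

/-- S: Lemma S of the paper -/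
theorem smooth_hardcore (c : Qt → Bool) (D : Set (Qt → Bool)) (N s h : ℕ) (hN : 1 ≤ N)
    (hs : Fintype.card Qt ≤ 2 ^ s) (R : Finset Qt) :
    (∃ ν : Bool → Qt → ℝ, (∀ b, (∀ q, 0 ≤ ν b q) ∧ ∑ q, ν b q = 1) ∧
      (∀ b q, ν b q ≠ 0 → c q = b ∧ q ∉ R) ∧ (∀ b q, ν b q ≤ 2 / 2 ^ h) ∧
      ∀ f ∈ D, ∑ q, ν true q * ind (f q) ≤ ∑ q, ν false q * ind (f q) + 1 / (N : ℝ)) ∨
    (∃ E : Finset Qt, E.card ≤ R.card + 4 ^ (h + 1) ∧
      ∃ l : List (Qt → Bool), l.length ≤ 4 * N ^ 2 * (2 * s + 1) ∧ (∀ f ∈ l, f ∈ D) ∧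
        ∃ θ ≤ l.length + 1, ∀ q, q ∉ E → c q = decide (θ ≤ l.countP fun f => f q)) := by
  classical
  by_cases halt : iss_Alt c D N s (R.card + 4 ^ (h + 1))
  · exact Or.inr halt
  left
  obtain ⟨ν, E, -, -, h1, -, h3⟩ := iss_rounds c D N s h hN hs R halt (2 ^ h) le_rfl
  set H : ℕ := 2 ^ h with hH
  have hHpos : (0 : ℝ) < (H : ℝ) := by rw [hH]; positivity
  have hHc : ((2 : ℝ) ^ h) = (H : ℝ) := by rw [hH]; push_cast; rfl
  have hsum : ∀ (b : Bool) (g : Qt → ℝ),
      ∑ q, ((1 / (H : ℝ)) * ∑ j ∈ Finset.range H, ν j b q) * g q =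
        (1 / (H : ℝ)) * ∑ j ∈ Finset.range H, ∑ q, ν j b q * g q := by
    intro b g
    rw [Finset.sum_comm, Finset.mul_sum]
    refine Finset.sum_congr rfl fun q _ => ?_
    rw [mul_assoc, Finset.sum_mul]
  refine ⟨fun b q => (1 / (H : ℝ)) * ∑ j ∈ Finset.range H, ν j b q, ?_, ?_, ?_, ?_⟩
  · intro b
    constructor
    · intro q
      exact mul_nonneg (by positivity) (Finset.sum_nonneg fun j hj =>
        ((h1 j (Finset.mem_range.1 hj)).1 b).1 q)
    · have := hsum b (fun _ => 1)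
      simp only [mul_one] at this
      rw [this, Finset.sum_congr rfl fun j hj => ((h1 j (Finset.mem_range.1 hj)).1 b).2]
      rw [Finset.sum_const, Finset.card_range, nsmul_eq_mul, mul_one]
      exact one_div_mul_cancel hHpos.ne'
  · intro b q hq
    have : ∃ j ∈ Finset.range H, ν j b q ≠ 0 := by
      by_contra hno
      push Not at hno
      apply hq
      show (1 / (H : ℝ)) * ∑ j ∈ Finset.range H, ν j b q = 0
      rw [Finset.sum_eq_zero hno, mul_zero]
    obtain ⟨j, hj, hne⟩ := this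
    exact (h1 j (Finset.mem_range.1 hj)).2.1 b q hne
  · intro b q
    show (1 / (H : ℝ)) * ∑ j ∈ Finset.range H, ν j b q ≤ 2 / 2 ^ h
    rw [hHc, one_div, inv_mul_eq_div]
    apply div_le_div_of_nonneg_right _ hHpos.le
    have hle1 : ∀ j < H, ν j b q ≤ 1 := by
      intro j hj
      rw [← ((h1 j hj).1 b).2]
      exact Finset.single_le_sum (fun q _ => ((h1 j hj).1 b).1 q) (Finset.mem_univ q)
    by_cases hheavy : ∃ j0 < H, 1 / 2 ^ h < ν j0 b q
    · obtain ⟨j0, hj0, hh⟩ := hheavy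
      have hrest : ∀ j ∈ (Finset.range H).erase j0, ν j b q ≤ 1 / 2 ^ h := by
        intro j hj
        rw [Finset.mem_erase, Finset.mem_range] at hj
        by_contra hcon
        push Not at hcon
        have hpos : (0 : ℝ) < 1 / 2 ^ h := by positivity
        rcases lt_or_gt_of_ne hj.1 with hlt | hlt
        · have := h3 j0 hj0 j hlt b b q hcon
          rw [this] at hh; linarith
        · have := h3 j hj.2 j0 hlt b b q hh
          rw [this] at hcon; linarith
      rw [← Finset.add_sum_erase _ _ (Finset.mem_range.2 hj0)]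
      have h5 := Finset.sum_le_sum hrest
      rw [Finset.sum_const, Finset.card_erase_of_mem (Finset.mem_range.2 hj0), Finset.card_range,
        nsmul_eq_mul] at h5
      have h6 : ((H - 1 : ℕ) : ℝ) * (1 / 2 ^ h) ≤ 1 := by
        rw [hHc, mul_one_div, div_le_one hHpos]
        exact_mod_cast Nat.sub_le _ _
      have h7 := hle1 j0 hj0
      linarith
    · push Not at hheavy
      have h5 : ∑ j ∈ Finset.range H, ν j b q ≤ ∑ j ∈ Finset.range H, (1 / 2 ^ h : ℝ) :=
        Finset.sum_le_sum fun j hj => hheavy j (Finset.mem_range.1 hj)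
      rw [Finset.sum_const, Finset.card_range, nsmul_eq_mul, hHc,
        mul_one_div_cancel hHpos.ne'] at h5
      linarith
  · intro f hf
    rw [hsum true (fun q => ind (f q)), hsum false (fun q => ind (f q))]
    have h5 : ∑ j ∈ Finset.range H, ∑ q, ν j true q * ind (f q) ≤
        ∑ j ∈ Finset.range H, (∑ q, ν j false q * ind (f q) + 1 / (N : ℝ)) :=
      Finset.sum_le_sum fun j hj => (h1 j (Finset.mem_range.1 hj)).2.2 f hf
    rw [Finset.sum_add_distrib, Finset.sum_const, Finset.card_range, nsmul_eq_mul] at h5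
    have h6 := mul_le_mul_of_nonneg_left h5 (by positivity : (0 : ℝ) ≤ 1 / (H : ℝ))
    refine h6.trans (le_of_eq ?_)
    rw [mul_add, ← mul_assoc, one_div_mul_cancel hHpos.ne', one_mul]

end prob

end Pool.Agent.TD.IS
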