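import Pool.Agent.Lib_helper74.IS.Loc
import Pool.Agent.Lib_helper74.NE.Univ
import Pool.Agent.Lib_helper74.IS.Blk.S
set_option autoImplicit false

namespace Pool.Agent.TD.IS

open Pool.Agent.CK

theorem hpg_lift {m : ℕ} (O : Lang) (T : Set ({q : Str // q.length ≤ m} → DT Bool)) :
    ∀ l : List ({q : Str // q.length ≤ m} → Bool),
      (∀ f ∈ l, f ∈ {f : {q : Str // q.length ≤ m} → Bool | ∃ t ∈ T,
        f = fun q => (t q).eval O}) →
      ∃ l' : List ({q : Str // q.length ≤ m} → DT Bool), l'.length = l.length ∧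
        (∀ t ∈ l', t ∈ T) ∧
        ∀ q, l.countP (fun f => f q) = l'.countP (fun t => (t q).eval O) := by
  intro l
  induction l with
  | nil => intro _; exact ⟨[], rfl, fun t ht => by simp at ht, fun q => rfl⟩
  | cons f l ih =>
    intro h
    obtain ⟨t, ht, hf⟩ := h f (List.mem_cons_self ..)
    obtain ⟨l', h1, h2, h3⟩ := ih fun g hg => h g (List.mem_cons_of_mem _ hg)
    refine ⟨t :: l', by simp [h1], ?_, ?_⟩
    · intro t' ht'
      rcases List.mem_cons.1 ht' with rfl | h'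
      · exact ht
      · exact h2 t' h'
    · intro q
      rw [List.countP_cons, List.countP_cons, h3 q, hf]

theorem hpg_lookup {m : ℕ} (c : Str → Bool) : ∀ (L : List {q : Str // q.length ≤ m}) (w : Str),
    (L.map fun q => (q.1, c q.1)).lookup w = if w ∈ L.map (fun q => q.1) then some (c w) else none := by
  intro L w
  induction L with
  | nil => simp
  | cons a L ih =>
    rw [List.map_cons, List.lookup_cons, List.map_cons]
    by_cases h : w = a.1
    · subst h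
      simp
    · have h1 : (w == a.1) = false := by simpa using h
      rw [h1]
      simp only [ih, List.mem_cons, h, false_or]

theorem hardpairG_aux {m : ℕ} [Fintype {q : Str // q.length ≤ m}] (c : Str → Bool) (O : Lang)
    (T : Set ({q : Str // q.length ≤ m} → DT Bool)) (A h : ℕ)
    (R : Finset {q : Str // q.length ≤ m})
    (hE : ∃ E : Finset {q : Str // q.length ≤ m}, E.card ≤ R.card + 4 ^ (h + 1) ∧
      ∃ l : List ({q : Str // q.length ≤ m} → Bool), l.length ≤ A ∧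
        (∀ f ∈ l, f ∈ {f : {q : Str // q.length ≤ m} → Bool | ∃ t ∈ T,
          f = fun q => (t q).eval O}) ∧
        ∃ θ ≤ l.length + 1, ∀ q, q ∉ E → c q.1 = decide (θ ≤ l.countP fun f => f q)) :
    ∃ (l : List ({q : Str // q.length ≤ m} → DT Bool)) (θ : ℕ) (E : List (Str × Bool)),
      l.length ≤ A ∧ (∀ t ∈ l, t ∈ T) ∧ θ ≤ l.length + 1 ∧
      E.length ≤ R.card + 4 ^ (h + 1) ∧ (∀ p ∈ E, p.1.length ≤ m) ∧
      ∀ w : Str, w.length ≤ m → (thrX l θ E w).eval O = c w := by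
  classical
  obtain ⟨E, hE, l, hl, hlT, θ, hθ, hc⟩ := hE
  obtain ⟨l', h1, h2, h3⟩ := hpg_lift O T l hlT
  refine ⟨l', θ, E.toList.map fun q => (q.1, c q.1), by rw [h1]; exact hl, h2,
    by rw [h1]; exact hθ, by rw [List.length_map, Finset.length_toList]; exact hE, ?_, ?_⟩
  · intro p hp
    obtain ⟨q, _, rfl⟩ := List.mem_map.1 hp
    exact q.2
  · intro w hw
    unfold thrX
    rw [hpg_lookup]
    by_cases hw' : w ∈ E.toList.map (fun q => q.1)
    · rw [if_pos hw']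
      rfl
    · rw [if_neg hw']
      have hq : (⟨w, hw⟩ : {q : Str // q.length ≤ m}) ∉ E := by
        intro h
        exact hw' (List.mem_map.2 ⟨⟨w, hw⟩, Finset.mem_toList.2 h, rfl⟩)
      have e := hc ⟨w, hw⟩ hq
      simp only [dif_pos hw]
      rw [DT.eval_thr, List.countP_map, e, h3]
      rfl

/-- G: from `smooth_hardcore` -/
theorem hardpairG {m : ℕ} [Fintype {q : Str // q.length ≤ m}] (c : Str → Bool) (O : Lang)
    (𝒯 : Set ({q : Str // q.length ≤ m} → DT Bool)) (N s h : ℕ) (hN : 1 ≤ N)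
    (hs : Fintype.card {q : Str // q.length ≤ m} ≤ 2 ^ s)
    (R : Finset {q : Str // q.length ≤ m}) :
    (∃ ν : Bool → {q : Str // q.length ≤ m} → ℝ, (∀ b, (∀ q, 0 ≤ ν b q) ∧ ∑ q, ν b q = 1) ∧
      (∀ b q, ν b q ≠ 0 → c q.1 = b ∧ q ∉ R) ∧ (∀ b q, ν b q ≤ 2 / 2 ^ h) ∧
      ∀ t ∈ 𝒯, ∑ q, ν true q * ind ((t q).eval O) ≤
        ∑ q, ν false q * ind ((t q).eval O) + 1 / (N : ℝ)) ∨
    (∃ (l : List ({q : Str // q.length ≤ m} → DT Bool)) (θ : ℕ) (E : List (Str × Bool)),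
      l.length ≤ 4 * N ^ 2 * (2 * s + 1) ∧ (∀ t ∈ l, t ∈ 𝒯) ∧ θ ≤ l.length + 1 ∧
      E.length ≤ R.card + 4 ^ (h + 1) ∧ (∀ p ∈ E, p.1.length ≤ m) ∧
      ∀ w : Str, w.length ≤ m → (thrX l θ E w).eval O = c w) := by
  classical
  rcases smooth_hardcore (fun q : {q : Str // q.length ≤ m} => c q.1)
    {f : {q : Str // q.length ≤ m} → Bool | ∃ t ∈ 𝒯, f = fun q => (t q).eval O} N s h hN hs R
    with ⟨ν, hν, hc, hb, hD⟩ | hE
  · exact Or.inl ⟨ν, hν, hc, hb, fun t ht => hD _ ⟨t, ht, rfl⟩⟩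
  · exact Or.inr (hardpairG_aux c O 𝒯 (4 * N ^ 2 * (2 * s + 1)) h R hE)

end Pool.Agent.TD.IS
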