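import Pool.Agent.Lib_helper74.IS.Loc
import Pool.Agent.Lib_helper74.NE.Univ
set_option autoImplicit false

namespace Pool.Agent.TD.IS

open Pool.Agent.CK

/-- K -/
theorem card_simI (k n : ℕ) (Fm : Set (X (2 * n) → DT Str)) (h5 : 5 ≤ sj k)
    (h2 : 2 * sj k ≤ su k) (hk : k < KK n) (hF : CardBd Fm (2 ^ aa (k + 1) n)) :
    CardBd (SimI k n Fm) (2 ^ (aa (k + 1) n + 2 * Lam n + 4)) := by
  have hfit : sM k + qb k + 3 ≤ 2 ^ Lam n := (fits k h5 h2).trans ((rel_iff k n).1 hk)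
  have hZQ : Fintype.card (Z k × Q k) ≤ 2 ^ (sM k + (qb k + 1)) := by
    rw [Fintype.card_prod, pow_add]
    exact Nat.mul_le_mul (card_Z k) (card_Q k)
  have h1 := card_image (fun p : (X (2 * n) → DT Str) × (List (Z k × Q k) × List (Q k)) =>
      (fun x => simI (stg k) [] (p.1 x) p.2.1 p.2.2))
    (card_prod hF (card_prod (card_lists hZQ (ss k n)) (card_lists (card_Q k) (dd n))))
  refine card_mono h1 ?_ (cdb_num (aa (k + 1) n) (Lam n) (sM k) (qb k) hfit)
  rintro A' ⟨A, hA, ρ, hρ, r, hr, rfl⟩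
  exact ⟨(A, (ρ, r)), ⟨hA, hρ, hr.le⟩, rfl⟩

/-- K -/
theorem card_cmpI (n0 k : ℕ) (Fm : Fam) (h16 : 16 ≤ n0) (h5 : 5 ≤ sj k)
    (h2 : 2 * sj k ≤ su k) (hK : NumI n0 k) (hF : Bdd n0 (k + 1) Fm) (n : ℕ) :
    CardBd (CmpI n0 k Fm n) (2 ^ (n / 3)) := by
  by_cases hn : n = sn k
  · have hB : CardBd (Set.univ : Set Bool) 1 := card_univ (by simp)
    have hE : CardBd ({s : Str | s.length ≤ qb k} ×ˢ (Set.univ : Set Bool)) (qb k + 1 + 1) :=
      card_prod (card_str (qb k)) hB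
    have h1 := card_image (fun p : List (Tst k) × (ℕ × (List (Str × Bool) × Str)) =>
        (fun x : X (2 * n) => DT.tr (thrX (p.1.map treeI) p.2.1 p.2.2.1)
          (invTreeW (iM (sj k)) p.2.2.2 n x.1)))
      (card_prod (card_list (card_tests n0 k Fm h16 h5 h2 hF) (lenI k))
        (card_prod (card_nat (lenI k + 1)) (card_prod (card_list hE (excI k))
          (card_str ((3 * sn k + 2) ^ sj k)))))
    refine card_mono h1 ?_ ?_
    · rintro A' ⟨-, l, hl, hl', θ, hθ, E, hE1, hE2, w, hw, rfl⟩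
      refine ⟨(l, (θ, (E, w))), ⟨⟨hl, hl'⟩, hθ.trans (by simpa using hl), ⟨hE1, ?_⟩, hw⟩, rfl⟩
      intro a ha
      exact ⟨hE2 a ha, trivial⟩
    · rw [hn]
      refine le_trans ?_ hK.hcard
      have e1 : 2 ^ (2 * Lam (3 * sM k) + aa 0 (3 * sM k) + 7) + 1 ≤
          2 ^ (2 * Lam (3 * sM k) + aa 0 (3 * sM k) + 8) := by
        rw [pow_succ 2 (2 * Lam (3 * sM k) + aa 0 (3 * sM k) + 7)]
        have := Nat.one_le_two_pow (n := 2 * Lam (3 * sM k) + aa 0 (3 * sM k) + 7)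
        omega
      have e2 := Nat.mul_le_mul_right (lenI k) e1
      have e3 : (lenI k + 2) * 2 ^ (2 * Lam (3 * sM k) + aa 0 (3 * sM k) + 8) =
          2 ^ (2 * Lam (3 * sM k) + aa 0 (3 * sM k) + 8) * lenI k +
            2 * 2 ^ (2 * Lam (3 * sM k) + aa 0 (3 * sM k) + 8) := by ring
      have e4 : (3 * sn k + 2) ^ sj k ≤ qb k := by
        unfold qb
        exact Nat.pow_le_pow_right (by omega) (by omega)
      have e5 : (excI k + 1) * (qb k + 4) = (qb k + 1 + 1 + 1) * excI k + excI k + (qb k + 4) := by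
        ring
      rw [e3, e5]
      omega
  · have e : CmpI n0 k Fm n = ∅ := by
      apply Set.eq_empty_of_forall_notMem
      rintro A ⟨h, -⟩
      exact hn h
    rw [e]
    exact ⟨Set.finite_empty, by simp⟩



end Pool.Agent.TD.IS
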