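import Pool.Agent.Lib_helper74.IS.Loc
import Pool.Agent.Lib_helper74.NE.Univ
import Pool.Agent.Lib_helper74.IS.Blk.A
import Pool.Agent.Lib_helper74.IS.Blk.W
/-!
# Block K2: depth of the derived adversaries
-/

set_option autoImplicit false

namespace Pool.Agent.TD.IS

open Pool.Agent.CK

theorem isk_tree_depth {n0 k : ℕ} {Fm : Fam} (h16 : 16 ≤ n0) (hF : Bdd n0 (k + 1) Fm)
    {t : Tst k} (ht : TstOK n0 k Fm t) (q : Q k) :
    (treeI t q).depth ≤ dd (3 * sM k) ∧ (treeI t q).AllQ fun w => w.length ≤ dd (3 * sM k) := by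
  obtain ⟨n, hn0, hn, _, ⟨A, hA, x, hx⟩, _⟩ := ht
  obtain ⟨_, _, h3⟩ := hF n hn0
  obtain ⟨h4, h5⟩ := h3 A hA x
  have hm : dd n ≤ dd (3 * sM k) := cdd_dd_mono (le_trans h16 hn0) hn.le
  constructor
  · unfold treeI
    rw [DT.depth_map]
    refine (depth_simI _ _ _ _ _).trans ?_
    rw [hx]
    exact h4.trans hm
  · unfold treeI
    apply mach_allQ_map
    apply allQ_simI
    rw [hx]
    exact h5.mono fun w hw => le_trans hw hm

theorem isk_thrX_depth {m : ℕ} (l : List ({q : Str // q.length ≤ m} → DT Bool)) (θ d : ℕ)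
    (E : List (Str × Bool)) (hl : ∀ t ∈ l, ∀ q, (t q).depth ≤ d) (w : Str) :
    (thrX l θ E w).depth ≤ l.length * d + 1 := by
  unfold thrX
  split
  · simp
  · split_ifs with hq
    · refine (DT.depth_thr _ _ d ?_).trans ?_
      · intro t ht
        obtain ⟨t', ht', rfl⟩ := List.mem_map.1 ht
        exact hl t' ht' _
      · rw [List.length_map]
        omega
    · simp

theorem isk_thrX_allQ {m : ℕ} (P : Str → Prop) (l : List ({q : Str // q.length ≤ m} → DT Bool))
    (θ : ℕ) (E : List (Str × Bool)) (hl : ∀ t ∈ l, ∀ q, (t q).AllQ P) (w : Str) :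
    (thrX l θ E w).AllQ P := by
  unfold thrX
  split
  · trivial
  · split_ifs with hq
    · apply allQ_thr
      intro t ht
      obtain ⟨t', ht', rfl⟩ := List.mem_map.1 ht
      exact hl t' ht' _
    · trivial

/-- K2 -/
theorem cmpI_depth (n0 k : ℕ) (Fm : Fam) (h16 : 16 ≤ n0) (hK : NumI n0 k)
    (hF : Bdd n0 (k + 1) Fm) (n : ℕ) :
    ∀ A ∈ CmpI n0 k Fm n, ∀ x, (A x).depth ≤ dd n ∧ (A x).AllQ fun w => w.length ≤ dd n := by
  rintro A ⟨hn, l, hl, hOK, θ, hθ, E, hE, hEl, w, hw, rfl⟩ x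
  subst hn
  have hdm : dd (3 * sM k) ≤ dd (sn k) := hK.hdd
  constructor
  · have h1 : ∀ q, (thrX (l.map treeI) θ E q).depth ≤ lenI k * dd (3 * sM k) + 1 := by
      intro q
      refine (isk_thrX_depth (l.map treeI) θ (dd (3 * sM k)) E ?_ q).trans ?_
      · intro t ht q
        obtain ⟨t', ht', rfl⟩ := List.mem_map.1 ht
        exact (isk_tree_depth h16 hF (hOK t' ht') _).1
      · rw [List.length_map]
        have := Nat.mul_le_mul_right (dd (3 * sM k)) hl
        omega
    have h2 := DT.depth_tr (thrX (l.map treeI) θ E) (invTreeW (iM (sj k)) w (sn k) x.1) _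
      (by omega) h1
    refine h2.trans (le_trans ?_ hK.hdepth)
    have h3 := invTreeW_depth (iM (sj k)) w (sn k) x.1 x.2
    have h4 : (3 * sn k + 2) ^ ex (iM (sj k)) ≤ (3 * sn k + 2) ^ sj k :=
      Nat.pow_le_pow_right (by omega) (cdd_ex_le k)
    calc (invTreeW (iM (sj k)) w (sn k) x.1).depth * (lenI k * dd (3 * sM k) + 1)
        ≤ (sn k * (3 * sn k + 2) ^ ex (iM (sj k))) * (lenI k * dd (3 * sM k) + 1) :=
          Nat.mul_le_mul_right _ h3
      _ ≤ (sn k * (3 * sn k + 2) ^ sj k) * (lenI k * dd (3 * sM k) + 1) :=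
          Nat.mul_le_mul_right _ (Nat.mul_le_mul_left _ h4)
      _ = sn k * ((3 * sn k + 2) ^ sj k * (lenI k * dd (3 * sM k) + 1)) := by ring
  · apply allQ_tr
    · refine (invTreeW_allQ k w hw x.1 x.2).mono ?_
      intro w hw
      have hlen := hK.hlen
      first
        | omega
        | (intro u hu
           rw [hu, List.length_cons] at hw
           omega)
    · intro q
      apply isk_thrX_allQ
      intro t ht q
      obtain ⟨t', ht', rfl⟩ := List.mem_map.1 ht
      exact (isk_tree_depth h16 hF (hOK t' ht') _).2.mono fun w hw => le_trans hw hdm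


end Pool.Agent.TD.IS
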