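import Pool.Agent.Lib_helper74.IS.Loc
import Pool.Agent.Lib_helper74.NE.Univ
import Pool.Agent.Lib_helper74.IS.Blk.P

set_option autoImplicit false

namespace Pool.Agent.TD.IS

open Pool.Agent.CK

/-! ## Block O: writing a table -/

theorem oq_se {k : ℕ} (h5 : 5 ≤ sj k) : 32 ≤ se k ∧ ∃ r, se k = 2 * r := by
  refine ⟨?_, 2 ^ (sj k - 1), ?_⟩
  · unfold se
    exact (by norm_num : 32 = 2 ^ 5).le.trans (Nat.pow_le_pow_right (by norm_num) h5)
  · unfold se
    rw [← pow_succ']
    congr 1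
    omega

theorem oq_none {k : ℕ} {w : Str} (h : tdec w = none) : posK k w = none := by
  unfold posK
  rw [h]

theorem oq_dir {k : ℕ} {w : Str} {p : (ℕ × Str) × (ℕ × Bool)} (h : tdec w = some p)
    (hp : p.1.1 = se k ∧ p.1.2 ∈ ZSet k) :
    posK k w = some (PosI.dir ⟨p.1.2, hp.2⟩ p.2) := by
  unfold posK
  rw [h]
  simp only
  rw [dif_pos hp]

theorem oq_inv {k : ℕ} {w : Str} {p : (ℕ × Str) × (ℕ × Bool)} (h : tdec w = some p)
    (hn : ¬ (p.1.1 = se k ∧ p.1.2 ∈ ZSet k)) (hp : p.1.1 = se k + 1 ∧ p.1.2 ∈ ISet k) :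
    ∃ (l : ℕ) (q : Q k), idec p.1.2 = some (l, q.1) ∧
      posK k w = some (PosI.inv l q p.2) := by
  refine ⟨hp.2.choose, ⟨hp.2.choose_spec.choose, hp.2.choose_spec.choose_spec.2.2.2⟩,
    hp.2.choose_spec.choose_spec.1, ?_⟩
  unfold posK
  rw [h]
  simp only
  rw [dif_neg hn, dif_pos hp]

theorem oq_else {k : ℕ} {w : Str} {p : (ℕ × Str) × (ℕ × Bool)} (h : tdec w = some p)
    (hn : ¬ (p.1.1 = se k ∧ p.1.2 ∈ ZSet k)) (hp : ¬ (p.1.1 = se k + 1 ∧ p.1.2 ∈ ISet k)) :
    posK k w = none := by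
  unfold posK
  rw [h]
  simp only
  rw [dif_neg hn, dif_neg hp]

/-- O -/
theorem orc_updI (S : Sec) (Tab : ℕ → Str → Str) (k : ℕ) (T : Z k → Q k) (h5 : 5 ≤ sj k) :
    orc S (updI Tab k T) = patchI (stg k) (orc S Tab) T := by
  obtain ⟨he, -⟩ := oq_se h5
  funext w
  unfold patchI
  rw [show (stg k).ps w = posK k w from rfl]
  unfold orc
  rcases hw : tdec w with _ | p
  · rw [oq_none hw]
  · by_cases hp : p.1.1 = se k ∧ p.1.2 ∈ ZSet k
    · rw [oq_dir hw hp]
      simp only
      rw [show ∀ q i, (stg k).rd q i = bit q.1 i from fun _ _ => rfl]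
      unfold val updI
      rw [if_neg (by omega), if_neg (by omega), if_neg (by omega), dif_pos hp]
    · by_cases hp' : p.1.1 = se k + 1 ∧ p.1.2 ∈ ISet k
      · obtain ⟨l, q, h1, h2⟩ := oq_inv hw hp hp'
        rw [h2]
        simp only
        rw [show ∀ o i, (stg k).rz o i = bit (zs o) i from fun _ _ => rfl]
        unfold val updI
        rw [if_neg (by omega), if_neg (by omega), if_neg (by omega), dif_neg hp, if_pos hp']
        congr 3
        funext y
        rw [h1]
        apply propext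
        constructor
        · rintro ⟨l', q', h3, h4, h5⟩
          rw [Option.some.injEq, Prod.mk.injEq] at h3
          exact ⟨h4.trans h3.1.symm, Subtype.ext (h5.trans h3.2.symm)⟩
        · rintro ⟨h3, h4⟩
          exact ⟨l, q.1, rfl, h3, congrArg Subtype.val h4⟩
      · rw [oq_else hw hp hp']
        simp only
        unfold val updI
        rw [dif_neg hp, if_neg hp']

/-- O -/
theorem orc_lowI (S : Sec) (Tab : ℕ → Str → Str) (k : ℕ) (T : Z k → Q k) (h5 : 5 ≤ sj k)
    (h2 : 2 * sj k ≤ su k) (w : Str) (hw : w.length < sD k) :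
    orc S (updI Tab k T) w = orc S Tab w := by
  rw [orc_updI S Tab k T h5]
  have h : (stg k).ps w = none := by
    rcases hp : posK k w with _ | p
    · exact hp
    · exact absurd (posK_len h2 hp) (by omega)
  unfold patchI
  rw [h]

/-- O -/
theorem updI_self (Tab : ℕ → Str → Str) (k : ℕ) (T : Z k → Q k) (z : Z k) :
    updI Tab k T (se k) z.1 = (T z).1 := by
  unfold updI
  rw [dif_pos ⟨rfl, z.2⟩]

/-- O -/
theorem updI_inv (Tab : ℕ → Str → Str) (k : ℕ) (T : Z k → Q k) (w : Str) (hw : w ∈ ISet k) :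
    updI Tab k T (se k + 1) w = invTab (updI Tab k T) k w := by
  have h1 : invTab (updI Tab k T) k w =
      zs (uq fun y : Z k => ∃ l q, idec w = some (l, q) ∧ y.1.length = l ∧ (T y).1 = q) := by
    unfold invTab
    congr 2
    funext y
    rw [updI_self]
  rw [h1]
  unfold updI
  rw [dif_neg (by rintro ⟨h, -⟩; omega), if_pos ⟨rfl, hw⟩]

/-- O -/
theorem updI_length (Tab : ℕ → Str → Str) (k : ℕ) (T : Z k → Q k) (e : ℕ) (z : Str) :
    (updI Tab k T e z = Tab e z) ∨ (e = se k ∧ z ∈ ZSet k ∧ (updI Tab k T e z).length ≤ qb k) ∨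
      (e = se k + 1 ∧ z ∈ ISet k ∧ (updI Tab k T e z).length < sM k) := by
  by_cases h : e = se k ∧ z ∈ ZSet k
  · right; left
    refine ⟨h.1, h.2, ?_⟩
    unfold updI
    rw [dif_pos h]
    exact (T ⟨z, h.2⟩).2
  · by_cases h' : e = se k + 1 ∧ z ∈ ISet k
    · right; right
      refine ⟨h'.1, h'.2, ?_⟩
      unfold updI
      rw [dif_neg h, if_pos h']
      rcases uq fun y : Z k => ∃ l q, idec z = some (l, q) ∧ y.1.length = l ∧ (T y).1 = q with
        _ | y
      · show 0 < sM k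
        unfold sM
        positivity
      · show y.1.length < sM k
        have := y.2.2
        omega
    · left
      unfold updI
      rw [dif_neg h, if_neg h']

/-- O: short entries with the same index do not change at the stage itself -/
theorem updI_short (Tab : ℕ → Str → Str) (k : ℕ) (T : Z k → Q k) (z : Str)
    (hz : z.length + 2 < sm k) : updI Tab k T (se k) z = Tab (se k) z := by
  unfold updI
  rw [dif_neg, if_neg]
  · rintro ⟨h, -⟩
    omega
  · rintro ⟨-, h⟩
    have := h.1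
    omega

/-- stages with the same index whose groups meet are the same -/
theorem oq_stage {k k' : ℕ} (hj : sj k' = sj k) (h2 : 2 * sj k ≤ su k) (h2' : 2 * sj k' ≤ su k')
    (h : st k = st k') : k = k' := by
  have e1 := stage_eq k
  have e2 := stage_eq k'
  have hsu : su k' = su k := by
    unfold st at h
    change su k - 2 * sj k = su k' - 2 * sj k' at h
    omega
  rw [e1.1, e2.1, hsu, hj]

theorem oq_sj {k k' : ℕ} (he : se k' = se k) : sj k' = sj k :=
  Nat.pow_right_injective (le_refl 2) he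

theorem oq_meet {k k' a : ℕ} (h1 : sm k ≤ a) (h2 : a < sM k) (h1' : sm k' ≤ a) (h2' : a < sM k') :
    st k = st k' := by
  have c1 : sm k < sM k' := h1.trans_lt h2'
  have c2 : sm k' < sM k := h1'.trans_lt h2
  unfold sm sM at c1 c2
  have d1 := (Nat.pow_lt_pow_iff_right (by norm_num : 1 < 2)).1
    ((Nat.pow_lt_pow_iff_right (by norm_num : 1 < 2)).1 c1)
  have d2 := (Nat.pow_lt_pow_iff_right (by norm_num : 1 < 2)).1
    ((Nat.pow_lt_pow_iff_right (by norm_num : 1 < 2)).1 c2)
  omega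

/-- O: later stages do not change the entries of the stage `k` -/
theorem updI_low (Tab : ℕ → Str → Str) (k k' : ℕ) (T : Z k' → Q k') (hk : k < k')
    (h5 : 5 ≤ sj k) (h2 : 2 * sj k ≤ su k) (h5' : 5 ≤ sj k') (h2' : 2 * sj k' ≤ su k') (z : Str)
    (hz : z.length + 2 < sM k) : updI Tab k' T (se k) z = Tab (se k) z := by
  obtain ⟨-, r, hr⟩ := oq_se h5
  obtain ⟨-, r', hr'⟩ := oq_se h5'
  unfold updI
  rw [dif_neg, if_neg]
  · rintro ⟨h, -⟩
    omega
  · rintro ⟨he, hz'⟩
    have hj := oq_sj he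
    have h1 : sm k' ≤ z.length + 2 := hz'.1
    have c2 : sm k' < sM k := h1.trans_lt hz
    unfold sm sM at c2
    have d2 := (Nat.pow_lt_pow_iff_right (by norm_num : 1 < 2)).1
      ((Nat.pow_lt_pow_iff_right (by norm_num : 1 < 2)).1 c2)
    have e1 := stage_eq k
    have e2 := stage_eq k'
    have hsu : su k' ≤ su k := by
      unfold st at d2
      change su k' - 2 * sj k' < su k - 2 * sj k + 1 at d2
      omega
    have : k' ≤ k := by
      rw [e1.1, e2.1, hj]
      exact Nat.add_le_add_right (Nat.mul_le_mul hsu hsu) _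
    omega

/-- O: other stages do not change the inverse table of the stage `k` -/
theorem updI_other_inv (Tab : ℕ → Str → Str) (k k' : ℕ) (T : Z k' → Q k') (hk : k ≠ k')
    (h5 : 5 ≤ sj k) (h2 : 2 * sj k ≤ su k) (h5' : 5 ≤ sj k') (h2' : 2 * sj k' ≤ su k') (w : Str)
    (hw : w ∈ ISet k) : updI Tab k' T (se k + 1) w = Tab (se k + 1) w := by
  obtain ⟨-, r, hr⟩ := oq_se h5
  obtain ⟨-, r', hr'⟩ := oq_se h5'
  unfold updI
  rw [dif_neg, if_neg]
  · rintro ⟨he, hw'⟩
    have hj := oq_sj (k := k) (k' := k') (by omega)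
    obtain ⟨l, q, h1, ⟨h3, h4⟩, -⟩ := hw
    obtain ⟨l', q', h1', ⟨h3', h4'⟩, -⟩ := hw'
    rw [h1, Option.some.injEq, Prod.mk.injEq] at h1'
    rw [← h1'.1] at h3' h4'
    exact hk (oq_stage hj h2 h2' (oq_meet h3 h4 h3' h4'))
  · rintro ⟨h, -⟩
    omega

end Pool.Agent.TD.IS
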