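import Pool.Agent.Lib_helper74.IS.Loc
import Pool.Agent.Lib_helper74.NE.Univ

/-!
# Project ISO, block R2: reduction with inverse from a table with inverse table
-/

set_option autoImplicit false

namespace Pool.Agent.TD.IS

open Pool.Agent.CK Pool.Agent.CKP

/-- equality of strings, computed from left to right -/
def r2_eq (x y : Str) : Bool :=
  (x.foldl (fun (s : Bool × Str) (a : Bool) =>
      (s.1 && !s.2.isEmpty && ((a && s.2.headD false) || (!a && !s.2.headD false)), s.2.tail))
    (true, y)).1 &&
  (x.foldl (fun (s : Bool × Str) (a : Bool) =>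
      (s.1 && !s.2.isEmpty && ((a && s.2.headD false) || (!a && !s.2.headD false)), s.2.tail))
    (true, y)).2.isEmpty

theorem r2_fold_false (x y : Str) :
    (x.foldl (fun (s : Bool × Str) (a : Bool) =>
      (s.1 && !s.2.isEmpty && ((a && s.2.headD false) || (!a && !s.2.headD false)), s.2.tail))
    (false, y)).1 = false := by
  induction x generalizing y with
  | nil => rfl
  | cons a x ih =>
    rw [List.foldl_cons]
    simp only [Bool.false_and]
    exact ih _

theorem r2_eq_iff (x y : Str) : r2_eq x y = true ↔ x = y := by
  unfold r2_eq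
  induction x generalizing y with
  | nil => cases y <;> simp
  | cons a x ih =>
    rw [List.foldl_cons]
    cases y with
    | nil =>
      simp only [List.isEmpty_nil, Bool.not_true, Bool.and_false, Bool.false_and, List.tail_nil]
      rw [r2_fold_false]
      simp
    | cons b y =>
      by_cases hab : a = b
      · subst hab
        have e : ((true && !(a :: y).isEmpty && ((a && (a :: y).headD false) ||
            (!a && !(a :: y).headD false)), (a :: y).tail) : Bool × Str) = (true, y) := by
          cases a <;> rfl
        rw [e, ih y]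
        simp
      · have e : ((true && !(b :: y).isEmpty && ((a && (b :: y).headD false) ||
            (!a && !(b :: y).headD false)), (b :: y).tail) : Bool × Str) = (false, y) := by
          revert hab
          cases a <;> cases b <;> simp
        rw [e, r2_fold_false]
        simp [hab]

theorem r2_ptime_eq {O : Lang} {γ : Type} [ToD γ] {f g : γ → Str} (hf : PTime O f)
    (hg : PTime O g) : PTime O (fun x => r2_eq (f x) (g x)) := by
  have hs : PTime O (fun p : γ × (Bool × Str) × Bool => p.2.1.2) := PTime.id.snd.fst.snd
  have ha : PTime O (fun p : γ × (Bool × Str) × Bool => p.2.2) := PTime.id.snd.snd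
  have hb : PTime O (fun p : γ × (Bool × Str) × Bool => p.2.1.1) := PTime.id.snd.fst.fst
  have h := PTime.foldl_add (l := f) (i := fun x => ((true, g x) : Bool × Str))
    (s := fun (_ : γ) (s : Bool × Str) (a : Bool) =>
      (s.1 && !s.2.isEmpty && ((a && s.2.headD false) || (!a && !s.2.headD false)), s.2.tail))
    hf ((PTime.const true).pair hg)
    (((hb.and (PTime.isNil hs).not).and ((ha.and (PTime.headD hs (PTime.const false))).or
      (ha.not.and (PTime.headD hs (PTime.const false)).not))).pair (PTime.tail hs)) 3 (by
      intro x b a _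
      have h1 : sz (b.1 && !b.2.isEmpty && ((a && b.2.headD false) ||
          (!a && !b.2.headD false))) ≤ 3 := by
        cases (b.1 && !b.2.isEmpty && ((a && b.2.headD false) || (!a && !b.2.headD false))) <;> simp
      have h2 : sz b = sz b.1 + sz b.2 + 1 := sz_pair b.1 b.2
      have h3 : 1 ≤ sz b.1 := sz_pos _
      have h4 := sz_tail_le b.2
      rw [sz_pair, Polynomial.eval_ofNat, h2]
      omega)
  exact h.fst.and (PTime.isNil h.snd)

/-- one candidate for the preimage -/
def r2_t (Te Ti : Str → Str) (m0 : ℕ) (y : Str) (l : List Unit) : List Str :=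
  if (r2_eq (Te (Ti ((l.map fun _ => true) ++ false :: y))) y &&
      r2_eq (Ti ((l.map fun _ => true) ++ false :: y)) (ones m0 ++ false ::
        udrop (List.replicate (m0 + 1) ()) (Ti ((l.map fun _ => true) ++ false :: y)))) = true then
    [true :: udrop (List.replicate (m0 + 1) ()) (Ti ((l.map fun _ => true) ++ false :: y))]
  else []

/-- the inverse function -/
def r2_g (Te Ti : Str → Str) (m0 : ℕ) (y : Str) : Str :=
  ((rangeU (ulen y)).flatMap (r2_t Te Ti m0 y)).headD []

theorem r2_ptime_g {O : Lang} {Te Ti : Str → Str} (hTe : PTime O Te) (hTi : PTime O Ti) (m0 : ℕ) :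
    PTime O (r2_g Te Ti m0) := by
  have hw : PTime O (fun p : Str × List Unit =>
      Ti ((p.2.map fun _ => true) ++ false :: p.1)) := by
    refine hTi.comp ?_
    refine PTime.append ?_ (PTime.cons (PTime.const false) PTime.id.fst)
    exact PTime.map (f := fun (_ : Str × List Unit) (_ : Unit) => true) PTime.id.snd
      (PTime.const true)
  have hd : PTime O (fun p : Str × List Unit => udrop (List.replicate (m0 + 1) ())
      (Ti ((p.2.map fun _ => true) ++ false :: p.1))) := PTime.udrop (PTime.const _) hw
  have ht : PTime O (fun p : Str × List Unit => r2_t Te Ti m0 p.1 p.2) := by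
    unfold r2_t
    refine PTime.ite ?_ ?_ (PTime.const [])
    · refine (r2_ptime_eq (hTe.comp hw) PTime.id.fst).and (r2_ptime_eq hw ?_)
      exact PTime.append (PTime.const _) (PTime.cons (PTime.const false) hd)
    · exact PTime.cons (PTime.cons (PTime.const true) hd) (PTime.const [])
  have hr : PTime O (fun y : Str => rangeU (ulen y)) := PTime.rangeU (PTime.ulen PTime.id)
  exact PTime.headD (PTime.flatMap (f := fun y l => r2_t Te Ti m0 y l) hr ht) (PTime.const [])

theorem r2_icode (l : List Unit) (y : Str) :
    (l.map fun _ => true) ++ false :: y = icode l.length y := by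
  unfold icode ones
  congr 1
  exact List.map_const' ..

/-- R2: reduction with inverse from a table with inverse table -/
theorem redI_abs {O : Lang} {Te Ti : Str → Str} (hTe : InFP O Te) (hTi : InFP O Ti) (m0 : ℕ)
    {A C : Lang}
    (hinj : ∀ z z' : Str, m0 ≤ z.length → m0 ≤ z'.length → Te z = Te z' → z = z')
    (hlen : ∀ z : Str, m0 ≤ z.length → z.length < (Te z).length)
    (hinv : ∀ z : Str, m0 ≤ z.length → Ti (icode z.length (Te z)) = z)
    (hred : ∀ z : Str, C (Te (ones m0 ++ false :: z)) = A z) : RedI O A C := by
  have hP := ptime_of_inFP hTe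
  have hQ := ptime_of_inFP hTi
  have hl : ∀ x : Str, (ones m0 ++ false :: x).length = m0 + 1 + x.length := by
    intro x
    unfold ones
    rw [List.length_append, List.length_replicate, List.length_cons]
    omega
  have hdrop : ∀ x : Str, udrop (List.replicate (m0 + 1) ()) (ones m0 ++ false :: x) = x := by
    intro x
    rw [udrop_eq, List.length_replicate]
    unfold ones
    rw [List.drop_append]
    simp
  -- a successful test
  have htest : ∀ (y : Str) (l : List Unit) (v : Str), v ∈ r2_t Te Ti m0 y l →
      ∃ x, Te (ones m0 ++ false :: x) = y ∧ v = true :: x := by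
    intro y l v hv
    unfold r2_t at hv
    split_ifs at hv with h
    · rw [Bool.and_eq_true, r2_eq_iff, r2_eq_iff] at h
      rw [List.mem_singleton] at hv
      refine ⟨_, ?_, hv⟩
      rw [← h.2]
      exact h.1
    · simp at hv
  refine ⟨fun x => Te (ones m0 ++ false :: x), r2_g Te Ti m0, ?_, inFP_of (r2_ptime_g hP hQ m0),
    fun x => (hred x).symm, ?_, ?_, ?_⟩
  · exact inFP_of (hP.comp (PTime.append (PTime.const _)
      (PTime.cons (PTime.const false) PTime.id)))
  · intro x
    have h := hlen (ones m0 ++ false :: x) (by rw [hl]; omega)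
    rw [hl] at h
    show x.length < (Te (ones m0 ++ false :: x)).length
    omega
  · intro x
    show r2_g Te Ti m0 (Te (ones m0 ++ false :: x)) = true :: x
    set z := ones m0 ++ false :: x with hz
    have hzl : m0 ≤ z.length := by rw [hz, hl]; omega
    have hlen' := hlen z hzl
    -- all members of the list
    have hall : ∀ v ∈ (rangeU (ulen (Te z))).flatMap (r2_t Te Ti m0 (Te z)), v = true :: x := by
      intro v hv
      rw [List.mem_flatMap] at hv
      obtain ⟨l, -, hv⟩ := hv
      obtain ⟨x', h1, h2⟩ := htest _ _ _ hv
      have h3 := hinj _ _ (by rw [hl]; omega) hzl h1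
      rw [hz] at h3
      have h4 : x' = x := by
        have := congrArg (udrop (List.replicate (m0 + 1) ())) h3
        rwa [hdrop, hdrop] at this
      rw [h2, h4]
    have hmem : (true :: x) ∈ (rangeU (ulen (Te z))).flatMap (r2_t Te Ti m0 (Te z)) := by
      rw [List.mem_flatMap]
      refine ⟨List.replicate z.length (), ?_, ?_⟩
      · rw [ulen_eq, rangeU_replicate, List.mem_map]
        exact ⟨z.length, List.mem_range.2 hlen', rfl⟩
      · unfold r2_t
        rw [r2_icode, List.length_replicate, hinv z hzl]
        have hd : udrop (List.replicate (m0 + 1) ()) z = x := by rw [hz]; exact hdrop x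
        rw [hd, if_pos]
        · exact List.mem_singleton.2 rfl
        · rw [Bool.and_eq_true, r2_eq_iff, r2_eq_iff]
          exact ⟨rfl, hz⟩
    unfold r2_g
    generalize (rangeU (ulen (Te z))).flatMap (r2_t Te Ti m0 (Te z)) = L at hall hmem
    cases L with
    | nil => simp at hmem
    | cons v L => exact hall v (List.mem_cons_self ..)
  · intro y hy
    have hnil : (rangeU (ulen y)).flatMap (r2_t Te Ti m0 y) = [] := by
      rw [List.eq_nil_iff_forall_not_mem]
      intro v hv
      rw [List.mem_flatMap] at hv
      obtain ⟨l, -, hv⟩ := hv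
      obtain ⟨x, h1, -⟩ := htest _ _ _ hv
      exact hy x h1
    unfold r2_g
    rw [hnil]
    rfl


end Pool.Agent.TD.IS
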