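import Pool.Agent.Lib_helper74.IS.Loc
import Pool.Agent.Lib_helper74.NE.Univ
import Pool.Agent.Lib_helper74.IS.Blk.P
import Pool.Agent.Lib_helper74.IS.Blk.W
set_option autoImplicit false

namespace Pool.Agent.TD.IS

open Pool.Agent.CK

theorem isr_len (S : Sec) (e : ℕ) (k : ℕ) (hk : sj k = e) {O : Lang} {F : ℕ → Lang → Lang} {C : Lang}
    (hC : EL F (iC e) O = C) {i : ℕ} (hi : iM e = i)
    (h : ∀ n, ∃ w : Str, w.length ≤ (n + 2) ^ ex i ∧
      ∀ x : Str, x.length = n → PLW i w (join O C) x = VV S x) : CorrW F S k O := by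
  obtain ⟨w, hw, h2⟩ := h (3 * sn k)
  refine ⟨w, hw.trans (Nat.pow_le_pow_right (by omega) ?_), ?_⟩
  · have := hpr_ex_le k
    rw [hk, hi] at this
    omega
  · intro x j hj
    rw [hk, hi, hC]
    apply h2
    rw [List.length_append, x.2, unitv_length]
    ring

/-- R3: what the goals say -/
theorem goals_facts {F : ℕ → Lang → Lang} (hF : ∀ i, PolyLocal (F i)) {S : Sec}
    {Tab : ℕ → Str → Str} {O : Lang} (t0 : ℕ → ℕ)
    (hgoal : ∀ k, Act t0 k → GoalI F S k O Tab) {A C : Lang}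
    (hC : Cls F O C) (hT : NonuniformTuringReducible O (VV S) C) (hA : Cls F O A) :
    ∃ e m0 : ℕ, 6 ≤ e ∧
      (∀ z z' : Str, m0 ≤ z.length → m0 ≤ z'.length → Tab e z = Tab e z' → z = z') ∧
      (∀ z : Str, m0 ≤ z.length → z.length < (Tab e z).length) ∧
      (∀ z : Str, m0 ≤ z.length → Tab (e + 1) (icode z.length (Tab e z)) = z) ∧
      ∀ z : Str, m0 ≤ z.length → C (Tab e z) = A (strip z) := by
  obtain ⟨i, hi⟩ := exists_EL hF hC
  obtain ⟨l, hl⟩ := exists_EL_strip hF hA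
  obtain ⟨j, hj⟩ := exists_PLW hT
  obtain ⟨e, he1, he2, he3, -, he5⟩ := exists_index i j l 0
  have h5 : 5 ≤ e := by
    have h := he5.1
    have a1 : 3 * 3 ≤ (2 * iN e + 3) * (iC e + 3) := Nat.mul_le_mul (by omega) (by omega)
    have a2 : 3 * 3 * 3 ≤ (2 * iN e + 3) * (iC e + 3) * (iM e + 3) :=
      Nat.mul_le_mul a1 (by omega)
    omega
  have h32 : 6 ≤ 2 ^ e := by
    have : 2 ^ 5 ≤ 2 ^ e := Nat.pow_le_pow_right (by norm_num) h5
    omega
  -- the goal of the group `t`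
  have hG : ∀ t, t0 e ≤ t → (∀ w ∈ ISet (col_k t e), Tab (2 ^ e + 1) w = invTab Tab (col_k t e) w) ∧
      (∀ z ∈ ZSet (col_k t e), (Tab (2 ^ e) z).length ≤ qb (col_k t e)) ∧
      ∀ z ∈ ZSet (col_k t e), C (Tab (2 ^ e) z) = A (strip z) ∧
        sM (col_k t e) ≤ (Tab (2 ^ e) z).length ∧
        ∀ z' : Str, z'.length + 2 < sM (col_k t e) → Tab (2 ^ e) z' = Tab (2 ^ e) z → z' = z := by
    intro t ht
    have hg := hgoal _ (col_act t0 t e h5 ht)
    obtain ⟨s1, s2, s3⟩ := stage_of t e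
    have s2' : sj (col_k t e) = e := s2
    have hse : se (col_k t e) = 2 ^ e := by unfold se; rw [s2']
    have hcor : CorrW F S (col_k t e) O :=
      isr_len S e _ s2' (by rw [he1]; exact hi) he2 hj
    obtain ⟨g1, g2, g3⟩ := hg
    have g4 := g3 hcor
    rw [s2', he1, he3, hi, hl, hse] at g4
    rw [hse] at g1 g2
    exact ⟨g2, g1, g4⟩
  -- the group of a long string
  have hgrp : ∀ z : Str, 2 ^ 2 ^ t0 e ≤ z.length → ∃ t, t0 e ≤ t ∧ z ∈ ZSet (col_k t e) := by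
    intro z hz
    obtain ⟨t, ht1, ht2, ht3⟩ := col_group z (t0 e) hz
    have s3 : st (col_k t e) = t := (stage_of t e).2.2
    refine ⟨t, ht1, ?_⟩
    unfold ZSet sm sM
    rw [s3]
    exact ⟨ht2, ht3⟩
  have hsM : ∀ t t', t ≤ t' → sM (col_k t e) ≤ sM (col_k t' e) := by
    intro t t' htt
    have s3 : st (col_k t e) = t := (stage_of t e).2.2
    have s3' : st (col_k t' e) = t' := (stage_of t' e).2.2
    unfold sM
    rw [s3, s3']
    exact Nat.pow_le_pow_right (by norm_num) (Nat.pow_le_pow_right (by norm_num) (by omega))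
  refine ⟨2 ^ e, 2 ^ 2 ^ t0 e, h32, ?_, ?_, ?_, ?_⟩
  · intro z z' hz hz' he
    obtain ⟨t, ht, hzt⟩ := hgrp z hz
    obtain ⟨t', ht', hzt'⟩ := hgrp z' hz'
    rcases le_total t t' with h | h
    · exact ((hG t' ht').2.2 z' hzt').2.2 z (hzt.2.trans_le (hsM t t' h)) he
    · exact (((hG t ht).2.2 z hzt).2.2 z' (hzt'.2.trans_le (hsM t' t h)) he.symm).symm
  · intro z hz
    obtain ⟨t, ht, hzt⟩ := hgrp z hz
    have h1 := ((hG t ht).2.2 z hzt).2.1
    have h2 : z.length + 2 < sM (col_k t e) := hzt.2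
    omega
  · intro z hz
    obtain ⟨t, ht, hzt⟩ := hgrp z hz
    obtain ⟨g1, g2, g3⟩ := hG t ht
    obtain ⟨-, g5, g6⟩ := g3 z hzt
    have s2' : sj (col_k t e) = e := (stage_of t e).2.1
    have hse : se (col_k t e) = 2 ^ e := by unfold se; rw [s2']
    have hmem : icode z.length (Tab (2 ^ e) z) ∈ ISet (col_k t e) :=
      icode_mem hzt.1 hzt.2 g5 (g2 z hzt)
    rw [g1 _ hmem]
    unfold invTab
    have huq : ∃! y : Z (col_k t e), ∃ l q, idec (icode z.length (Tab (2 ^ e) z)) = some (l, q) ∧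
        y.1.length = l ∧ Tab (se (col_k t e)) y.1 = q := by
      refine ⟨⟨z, hzt⟩, ⟨z.length, Tab (2 ^ e) z, idec_icode _ _, rfl, by rw [hse]⟩, ?_⟩
      rintro y ⟨l, q, h1, h2, h3⟩
      rw [idec_icode] at h1
      obtain ⟨rfl, rfl⟩ := Prod.mk.inj (Option.some.inj h1)
      rw [hse] at h3
      exact Subtype.ext (g6 y.1 y.2.2 h3)
    have huq2 : uq (fun y : Z (col_k t e) => ∃ l q,
        idec (icode z.length (Tab (2 ^ e) z)) = some (l, q) ∧
        y.1.length = l ∧ Tab (se (col_k t e)) y.1 = q) = some ⟨z, hzt⟩ := by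
      unfold uq
      rw [dif_pos huq]
      congr 1
      apply huq.unique huq.choose_spec.1
      exact ⟨z.length, Tab (2 ^ e) z, idec_icode _ _, rfl, by rw [hse]⟩
    rw [huq2]
    rfl
  · intro z hz
    obtain ⟨t, ht, hzt⟩ := hgrp z hz
    exact ((hG t ht).2.2 z hzt).1


end Pool.Agent.TD.IS
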