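import Pool.Agent.Lib_helper74.IS.Loc
import Pool.Agent.Lib_helper74.NE.Univ
set_option autoImplicit false

namespace Pool.Agent.TD.IS

open Pool.Agent.CK

section prob

variable {Xf Zt Qt ι : Type} [Fintype Xf] [Fintype Zt] [DecidableEq Zt] [Fintype Qt]
  [DecidableEq Qt]

theorem u1_pair {μ : Zt → Qt → ℝ} (hμ : IsPD μ) {z z' : Zt} (h : z ≠ z') :
    Pr μ [] (fun T => ind (decide (T z = T z'))) = ∑ q, μ z q * μ z' q := by
  rw [Pr_reveal μ [] z (by simp)]
  refine Finset.sum_congr rfl fun q _ => ?_
  have h1 : ([(z, q)] : List (Zt × Qt)).lookup z' = none := by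
    have h2 : (z' == z) = false := by simpa using Ne.symm h
    simp [List.lookup_cons, h2]
  rw [Pr_reveal μ [(z, q)] z' h1]
  congr 1
  have h3 : ∀ q', Pr μ ((z', q') :: [(z, q)]) (fun T => ind (decide (T z = T z'))) =
      if q' = q then 1 else 0 := by
    intro q'
    have h4 : ∀ T : Zt → Qt, (∀ y p, ((z', q') :: [(z, q)]).lookup y = some p → T y = p) →
        ind (decide (T z = T z')) = (if q' = q then (1 : ℝ) else 0) * 1 := by
      intro T hT
      have e1 : T z' = q' := hT z' q' (by simp)
      have e2 : T z = q := by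
        refine hT z q ?_
        have h5 : (z == z') = false := by simpa using h
        simp [List.lookup_cons, h5]
      rw [e1, e2, ind, mul_one]
      by_cases hq : q' = q
      · subst hq; simp
      · rw [if_neg hq, if_neg]
        simpa using Ne.symm hq
    rw [Pr_congr μ _ h4, Pr_mul, Pr_one hμ, mul_one]
  simp_rw [h3]
  simp

open Classical in
/-- U -/
theorem inj_prob {μ : Zt → Qt → ℝ} (hμ : IsPD μ) (η : ℝ) (hη0 : 0 ≤ η)
    (hη : ∀ z z', z ≠ z' → ∑ q, μ z q * μ z' q ≤ η) :
    Pr μ [] (fun T => ind (decide (¬ Function.Injective T))) ≤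
      (Fintype.card Zt : ℝ) ^ 2 * η := by
  have h1 : ∀ T : Zt → Qt, ind (decide (¬ Function.Injective T)) ≤
      ∑ z : Zt, ∑ z' : Zt, (if z = z' then 0 else ind (decide (T z = T z'))) := by
    intro T
    have hnn : ∀ z z' : Zt, 0 ≤ (if z = z' then (0 : ℝ) else ind (decide (T z = T z'))) := by
      intro z z'
      split_ifs
      · exact le_rfl
      · unfold ind; split_ifs <;> norm_num
    by_cases hT : Function.Injective T
    · rw [ind, if_neg (by simpa using hT)]
      exact Finset.sum_nonneg fun z _ => Finset.sum_nonneg fun z' _ => hnn z z'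
    · rw [Function.Injective] at hT
      push Not at hT
      obtain ⟨z, z', h2, h3⟩ := hT
      have h4 : ind (decide (¬ Function.Injective T)) ≤
          (if z = z' then (0 : ℝ) else ind (decide (T z = T z'))) := by
        rw [if_neg h3]
        have h5 : ind (decide (T z = T z')) = 1 := by
          unfold ind
          rw [if_pos (by simpa using h2)]
        rw [h5]
        unfold ind
        split_ifs <;> norm_num
      refine h4.trans ?_
      refine (Finset.single_le_sum (f := fun y : Zt =>
        (if z = y then (0 : ℝ) else ind (decide (T z = T y)))) (fun y _ => hnn z y)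
        (Finset.mem_univ z')).trans ?_
      exact Finset.single_le_sum (f := fun x : Zt => ∑ y : Zt,
        (if x = y then (0 : ℝ) else ind (decide (T x = T y))))
        (fun x _ => Finset.sum_nonneg fun y _ => hnn x y) (Finset.mem_univ z)
  refine (Pr_mono hμ [] h1).trans ?_
  rw [pm_sum]
  have h2 : ∀ z : Zt, Pr μ [] (fun T => ∑ z' : Zt,
      (if z = z' then 0 else ind (decide (T z = T z')))) ≤ Fintype.card Zt * η := by
    intro z
    rw [pm_sum]
    refine (Finset.sum_le_sum (g := fun _ => η) fun z' _ => ?_).trans ?_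
    · by_cases h : z = z'
      · simp only [h, if_true]
        have h3 : Pr μ [] (fun _ : Zt → Qt => (0 : ℝ)) = 0 := by simp [Pr]
        rw [h3]
        exact hη0
      · simp only [if_neg h]
        rw [u1_pair hμ h]
        exact hη z z' h
    · rw [Finset.sum_const, Finset.card_univ, nsmul_eq_mul]
  refine (Finset.sum_le_sum fun z _ => h2 z).trans ?_
  rw [Finset.sum_const, Finset.card_univ, nsmul_eq_mul]
  exact le_of_eq (by ring)

end prob


end Pool.Agent.TD.IS
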