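import Pool.Agent.Lib_helper74.IS.Loc
import Pool.Agent.Lib_helper74.NE.Univ
import Pool.Agent.Lib_helper74.IS.Blk.F
import Pool.Agent.Lib_helper74.IS.Blk.U1
import Pool.Agent.Lib_helper74.IS.Blk.U2
set_option autoImplicit false

namespace Pool.Agent.TD.IS

open Pool.Agent.CK

section prob

variable {Xf Zt Qt ι : Type} [Fintype Xf] [Fintype Zt] [DecidableEq Zt] [Fintype Qt]
  [DecidableEq Qt]

/-- T: one table, for finitely many games `n < I`: `Xf n` is the set of the inputs, `α n` the type of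
the adversaries, the tree `B n A x` tells whether the adversary `A` wins on the input `x`. -/
theorem table_stage (G : Stg Zt Qt ι) (O : Lang) (ν : Bool → Qt → ℝ)
    (hν : ∀ b, (∀ q, 0 ≤ ν b q) ∧ ∑ q, ν b q = 1) (κ : Zt → Bool)
    (ε δ η : ℝ) (hε0 : 0 ≤ ε) (hδ : 0 ≤ δ) (hη0 : 0 ≤ η)
    (hε : ∀ l q, ∑ z with G.ln z = l, ν (κ z) q ≤ ε)
    (hη : ∀ z z', z ≠ z' → ∑ q, ν (κ z) q * ν (κ z') q ≤ η)
    (hη2 : (Fintype.card Zt : ℝ) ^ 2 * η ≤ 1 / 2)
    (I : ℕ) {Xf α : ℕ → Type} [∀ n, Fintype (Xf n)] (Fm : ∀ n, Set (α n))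
    (B : ∀ n, α n → Xf n → DT Bool) (a d R : ℕ → ℕ) (W θ : ℕ → ℝ)
    (hcard : ∀ n < I, CardBd (Fm n) (a n))
    (hdep : ∀ n < I, ∀ A ∈ Fm n, ∀ x, (B n A x).depth ≤ d n)
    (hθ : ∀ n < I, 0 < θ n) (hR : ∀ n < I, (2 : ℝ) ^ (a n + n + 2) < (1 + θ n) ^ (R n))
    (hD : ∀ n < I, ∀ A ∈ Fm n, ∀ x, ∀ (ρ : List (Zt × Qt)) (pre post : List Qt),
      ρ.length ≤ R n * d n → pre.length ≤ d n → post.length ≤ d n →
      ∑ q, ν true q * ind ((simI G false (B n A x) ρ (pre ++ q :: post)).eval O) ≤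
        ∑ q, ν false q * ind ((simI G false (B n A x) ρ (pre ++ q :: post)).eval O) + δ)
    (hsim : ∀ n < I, ∀ A ∈ Fm n, ∀ (ρ : List (Zt × Qt)) (r : List Qt), ρ.length ≤ R n * d n →
      r.length = d n → ∑ x, ind ((simI G false (B n A x) ρ r).eval O) <
        W n / (1 + θ n) - Fintype.card (Xf n) * (d n * (ε + δ))) :
    ∃ T : Zt → Qt, (∀ z, ν (κ z) (T z) ≠ 0) ∧ Function.Injective T ∧
      ∀ n < I, ∀ A ∈ Fm n, ∑ x, ind ((B n A x).eval (patchI G O T)) < W n := by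
  classical
  have hμ : IsPD (fun z => ν (κ z)) := fun z => hν (κ z)
  obtain ⟨T, h1, h2, h3⟩ := union_boundI hμ I Fm
    (fun n A T => decide (W n ≤ ∑ x, ind ((B n A x).eval (patchI G O T)))) a hcard
    (fun n hn A hA => by
      have hR' := hR n hn
      have hp2 : (0 : ℝ) < 2 ^ (a n + n + 2) := by positivity
      refine failprobG ν hν κ G O (B n A) (d n) (hdep n hn A hA) ε δ hε0 hδ hε (W n) (θ n)
        (hθ n hn) (R n) ((1 / 2 : ℝ) ^ (a n + n + 2)) (by positivity) ?_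
        (hD n hn A hA) (hsim n hn A hA)
      rw [one_div, inv_pow, ← div_eq_mul_inv, lt_div_iff₀ hp2, one_mul]
      exact hR')
    (fun T => decide (¬ Function.Injective T))
    ((inj_prob hμ η hη0 hη).trans hη2)
  refine ⟨T, h1, ?_, fun n hn A hA => ?_⟩
  · simpa using h2
  · have := h3 n hn A hA
    simpa using this

end prob

end Pool.Agent.TD.IS
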