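import Pool.Agent.Lib_helper74.IS.Loc
import Pool.Agent.Lib_helper74.NE.Univ
import Pool.Agent.Lib_helper74.IS.Blk.G
import Pool.Agent.Lib_helper74.IS.Blk.W
/-!
# One NP-complete language, block Y: the hard pair of a stage
-/

set_option autoImplicit false

namespace Pool.Agent.TD.IS

open Pool.Agent.CK

theorem isy_sm_le (k : ℕ) : sm k ≤ sM k := by
  unfold sm sM
  exact Nat.pow_le_pow_right (by norm_num) (Nat.pow_le_pow_right (by norm_num) (Nat.le_succ _))

/-- Y -/
theorem avoid_card (Tab : ℕ → Str → Str) (k : ℕ) :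
    ∃ R : Finset (Q k), R.card ≤ 2 ^ (sM k + 1) ∧ ∀ q : Q k, q ∉ R → sM k ≤ q.1.length ∧
      ∀ z : Str, z.length + 2 < sm k → Tab (se k) z ≠ q.1 := by
  classical
  have hM : 0 < sM k := by
    unfold sM
    positivity
  have hmM := isy_sm_le k
  obtain ⟨hf, hc⟩ := card_str (sM k - 1)
  rw [Nat.sub_add_cancel hM] at hc
  refine ⟨Finset.univ.filter (fun q : Q k => q.1.length < sM k ∨
    ∃ z : Str, z.length + 2 < sm k ∧ Tab (se k) z = q.1), ?_, ?_⟩
  · have h1 : ((Finset.univ.filter (fun q : Q k => q.1.length < sM k ∨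
        ∃ z : Str, z.length + 2 < sm k ∧ Tab (se k) z = q.1)).image fun q : Q k => q.1) ⊆
        hf.toFinset ∪ hf.toFinset.image (Tab (se k)) := by
      intro s hs
      obtain ⟨q, hq, rfl⟩ := Finset.mem_image.1 hs
      rcases (Finset.mem_filter.1 hq).2 with h | ⟨z, hz, hzq⟩
      · refine Finset.mem_union_left _ ?_
        rw [Set.Finite.mem_toFinset]
        show q.1.length ≤ sM k - 1
        omega
      · refine Finset.mem_union_right _ (Finset.mem_image.2 ⟨z, ?_, hzq⟩)
        rw [Set.Finite.mem_toFinset]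
        show z.length ≤ sM k - 1
        omega
    have h2 := Finset.card_le_card h1
    rw [Finset.card_image_of_injective _ Subtype.val_injective] at h2
    have h3 := Finset.card_union_le hf.toFinset (hf.toFinset.image (Tab (se k)))
    have h4 : (hf.toFinset.image (Tab (se k))).card ≤ hf.toFinset.card := Finset.card_image_le
    have h5 : hf.toFinset.card ≤ 2 ^ sM k := by
      rw [← Set.ncard_eq_toFinset_card _ hf]
      exact hc
    have h6 : (2 : ℕ) ^ (sM k + 1) = 2 ^ sM k + 2 ^ sM k := by ring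
    omega
  · intro q hq
    rw [Finset.mem_filter, not_and] at hq
    have h1 := hq (Finset.mem_univ _)
    push Not at h1
    exact ⟨h1.1, h1.2⟩

theorem isy_lift (n0 k : ℕ) (Fm : Fam) :
    ∀ l : List (Q k → DT Bool),
      (∀ f ∈ l, f ∈ {f : Q k → DT Bool | ∃ t : Tst k, TstOK n0 k Fm t ∧ f = treeI t}) →
      ∃ l' : List (Tst k), l'.map treeI = l ∧ ∀ t ∈ l', TstOK n0 k Fm t := by
  intro l
  induction l with
  | nil => intro _; exact ⟨[], rfl, fun t ht => by simp at ht⟩
  | cons f l ih =>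
    intro h
    obtain ⟨t, ht, hf⟩ := h f (List.mem_cons_self ..)
    obtain ⟨l', h1, h2⟩ := ih fun g hg => h g (List.mem_cons_of_mem _ hg)
    refine ⟨t :: l', by rw [List.map_cons, h1, hf], ?_⟩
    intro t' ht'
    rcases List.mem_cons.1 ht' with rfl | h'
    · exact ht
    · exact h2 t' h'

/-- Y: from `hardpairG` with `h = 4 * sM k + 1` -/
theorem hardpairI (F : ℕ → Lang → Lang) (n0 k : ℕ) (Fm : Fam) (S : Sec) (O : Lang)
    (hcor : CorrW F S k O)
    (R : Finset (Q k)) (hR : R.card ≤ 2 ^ (sM k + 1))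
    (hdef : ∀ A ∈ CmpI n0 k Fm (sn k),
      Del k (sn k) * hits (sn k) (vv S (sn k)) A O < 4 ^ sn k) :
    ∃ ν : Bool → Q k → ℝ, (∀ b, (∀ q, 0 ≤ ν b q) ∧ ∑ q, ν b q = 1) ∧
      (∀ b q, ν b q ≠ 0 → EL F (iC (sj k)) O q.1 = b ∧ q ∉ R) ∧
      (∀ b q, ν b q ≤ 1 / 2 ^ (4 * sM k)) ∧
      ∀ t : Tst k, TstOK n0 k Fm t →
        ∑ q, ν true q * ind ((treeI t q).eval O) ≤
          ∑ q, ν false q * ind ((treeI t q).eval O) + 1 / (NI k : ℝ) := by
  have hN : 1 ≤ NI k := by
    unfold NI dd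
    have h1 : 0 < 2 ^ Lam (3 * sM k) := by positivity
    have h2 : 0 < 2 ^ (Lam (3 * sM k) + 2 * KK (3 * sM k)) := by positivity
    have h3 : 0 < 8 * 2 ^ Lam (3 * sM k) * 2 ^ (Lam (3 * sM k) + 2 * KK (3 * sM k)) := by
      positivity
    exact h3
  rcases hardpairG (EL F (iC (sj k)) O) O
    {f : Q k → DT Bool | ∃ t : Tst k, TstOK n0 k Fm t ∧ f = treeI t}
    (NI k) (qb k + 1) (4 * sM k + 1) hN (card_Q k) R with
    ⟨ν, hν, hc, hs, hD⟩ | ⟨l, θ, E, hl, hlD, hθ, hE1, hE2, hcq⟩
  · refine ⟨ν, hν, hc, fun b q => ?_, fun t ht => hD _ ⟨t, ht, rfl⟩⟩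
    refine (hs b q).trans (le_of_eq ?_)
    rw [pow_succ]
    field_simp
  · exfalso
    obtain ⟨l', h1, h2⟩ := isy_lift n0 k Fm l hlD
    obtain ⟨w, hw, hcor'⟩ := hcor
    have hlen : l'.length = l.length := by rw [← h1, List.length_map]
    have hE3 : E.length ≤ excI k := by
      have h3 : (4 : ℕ) ^ (4 * sM k + 1 + 1) = 2 ^ (8 * sM k + 4) := by
        rw [show (4 : ℕ) = 2 ^ 2 by norm_num, ← pow_mul]
        congr 1
        ring
      have h4 : (2 : ℕ) ^ (sM k + 1) ≤ 2 ^ (8 * sM k + 4) :=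
        Nat.pow_le_pow_right (by norm_num) (by omega)
      have h5 : excI k = 2 ^ (8 * sM k + 4) + 2 ^ (8 * sM k + 4) := by
        unfold excI
        ring
      rw [h3] at hE1
      omega
    have hmem : (fun x : X (2 * sn k) => DT.tr (thrX (l'.map treeI) θ E)
        (invTreeW (iM (sj k)) w (sn k) x.1)) ∈ CmpI n0 k Fm (sn k) :=
      ⟨rfl, l', by rw [hlen]; exact hl, h2, θ, by rw [hlen]; exact hθ, E, hE3, hE2, w, hw, rfl⟩
    have hall : ∀ x : X (2 * sn k), (DT.tr (thrX (l'.map treeI) θ E)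
        (invTreeW (iM (sj k)) w (sn k) x.1)).eval O = vv S (sn k) x := by
      intro x
      rw [DT.eval_tr, ← invTreeW_correct S (iM (sj k)) w (sn k) x
        (join O (EL F (iC (sj k)) O)) (fun i hi => hcor' x i hi)]
      apply DT.eval_join_congr _ _ (invTreeW_allQ k w hw x.1 x.2)
      · intro u _
        rfl
      · intro u hu
        have hu' : u.length ≤ qb k := by
          have : (true :: u).length ≤ qb k := hu
          rw [List.length_cons] at this
          omega
        rw [h1]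
        exact hcq u hu'
    have hh : hits (sn k) (vv S (sn k)) (fun x : X (2 * sn k) =>
        DT.tr (thrX (l'.map treeI) θ E) (invTreeW (iM (sj k)) w (sn k) x.1)) O =
          4 ^ sn k := by
      unfold hits
      rw [Finset.filter_true_of_mem (fun x _ => hall x), Finset.card_univ, card_X, pow_mul]
      norm_num
    have h4 := hdef _ hmem
    rw [hh] at h4
    have hD1 : 1 ≤ Del k (sn k) := by
      unfold Del
      exact Nat.one_le_two_pow
    have h5 : 1 * 4 ^ sn k ≤ Del k (sn k) * 4 ^ sn k := Nat.mul_le_mul_right _ hD1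
    omega



end Pool.Agent.TD.IS
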